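import Pool.Agent.Helper91.DO.D15d

set_option autoImplicit false

/-!
# D15: `e^m` as a mixed cochain
-/

namespace Pool.Agent.Helper67.DO

open scoped BigOperators Interval
open MeasureTheory

noncomputable section

/-! ### restriction to a simplex -/

def d15L (j : ℕ) (y : Sq) (c : ℕ → ℝ) : ℝ → ℝ := ∑ i ∈ Finset.range (j + 2), c i • y i

def d15i (j : ℕ) (y z : Sq) (x : ℕ → ℕ → ℝ) : Sq :=
  fun k => if k ≤ j then d15L j y (x k) else z (k - (j + 1))

def d15X (j k i : ℕ) (x : ℕ → ℕ → ℝ) : ℝ := if k ≤ j then x k i else if i = 0 then 1 else 0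

def d15w (j : ℕ) (y z : Sq) (k i : ℕ) : ℝ → ℝ := if k ≤ j then y i else z (k - (j + 1))

theorem d15i_eq (j : ℕ) (y z : Sq) (x : ℕ → ℕ → ℝ) (k : ℕ) :
    d15i j y z x k = ∑ i ∈ Finset.range (j + 2), d15X j k i x • d15w j y z k i := by
  unfold d15i d15X d15w
  by_cases hk : k ≤ j
  · simp only [if_pos hk]
    rfl
  · simp only [if_neg hk]
    rw [Finset.sum_eq_single 0]
    · simp
    · intro b _ hb
      simp [hb]
    · intro h
      exact absurd (Finset.mem_range.2 (by omega)) h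

theorem d15X_mem (j k i : ℕ) :
    (fun x : ℕ → ℕ → ℝ => (d15X j k i x : ℂ)) ∈ d15G (j + 1) (fun b => if b = k then 1 else 0) := by
  unfold d15X
  by_cases hk : k ≤ j
  · simp only [if_pos hk]
    exact d15G_coord (j + 1) k i (by omega)
  · simp only [if_neg hk]
    exact d15G_const _ _ _

theorem d15w_c1 (j : ℕ) (y z : Sq) (hy : ∀ k, ContDiff ℝ 1 (y k)) (hz : ∀ k, ContDiff ℝ 1 (z k))
    (k i : ℕ) : ContDiff ℝ 1 (d15w j y z k i) := by
  unfold d15w
  split_ifs
  · exact hy i
  · exact hz _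

theorem d15M_mem (j : ℕ) (y z : Sq) (hy : ∀ k, ContDiff ℝ 1 (y k)) (hz : ∀ k, ContDiff ℝ 1 (z k))
    (k l : ℕ) : (fun x => (d15M (d15i j y z x k) (d15i j y z x l) : ℂ)) ∈
      d15G (j + 1) (fun b => (if b = k then 1 else 0) + if b = l then 1 else 0) := by
  have e : (fun x => (d15M (d15i j y z x k) (d15i j y z x l) : ℂ)) = fun x =>
      ∑ i ∈ Finset.range (j + 2), ∑ i' ∈ Finset.range (j + 2),
        ((d15M (d15w j y z k i) (d15w j y z l i') : ℂ) • ((fun x => (d15X j k i x : ℂ)) *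
          fun x => (d15X j l i' x : ℂ))) x := by
    funext x
    rw [d15i_eq, d15i_eq, d15M_sum_sum _ _ _ _ (d15w_c1 j y z hy hz k) (d15w_c1 j y z hy hz l)]
    push_cast
    refine Finset.sum_congr rfl fun i _ => Finset.sum_congr rfl fun i' _ => ?_
    simp only [Pi.smul_apply, Pi.mul_apply, smul_eq_mul]
    ring
  rw [e]
  refine d15G_sum _ _ _ _ fun i _ => d15G_sum _ _ _ _ fun i' _ => ?_
  exact Submodule.smul_mem _ _ (d15G_mul (j + 1) (d15X_mem j k i) (d15X_mem j l i'))

theorem d15e_mem (j : ℕ) (y z : Sq) (hy : ∀ k, ContDiff ℝ 1 (y k)) (hz : ∀ k, ContDiff ℝ 1 (z k))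
    (k l r : ℕ) : (fun x => (d15e (d15i j y z x k) (d15i j y z x l) (d15i j y z x r) : ℂ)) ∈
      d15G (j + 1) (fun b => (if b = k then 1 else 0) + (if b = l then 1 else 0)
        + if b = r then 1 else 0) := by
  have h1 := d15G_mono (j + 1) (d' := fun b => (if b = k then 1 else 0) + (if b = l then 1 else 0)
        + if b = r then 1 else 0) (by intro b; omega) (d15M_mem j y z hy hz k l)
  have h2 := d15G_mono (j + 1) (d' := fun b => (if b = k then 1 else 0) + (if b = l then 1 else 0)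
        + if b = r then 1 else 0) (by intro b; omega) (d15M_mem j y z hy hz l r)
  have h3 := d15G_mono (j + 1) (d' := fun b => (if b = k then 1 else 0) + (if b = l then 1 else 0)
        + if b = r then 1 else 0) (by intro b; omega) (d15M_mem j y z hy hz k r)
  have h4 := Submodule.smul_mem _ (1 / 2 : ℂ) (Submodule.sub_mem _ (Submodule.add_mem _ h1 h2) h3)
  refine (congrArg (fun G => G ∈ d15G (j + 1) (fun b => (if b = k then 1 else 0)
    + (if b = l then 1 else 0) + if b = r then 1 else 0)) ?_).mp h4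
  funext x
  simp only [Pi.smul_apply, Pi.sub_apply, Pi.add_apply, smul_eq_mul]
  unfold d15e
  push_cast
  ring

theorem d15P_mem (j : ℕ) (y z : Sq) (hy : ∀ k, ContDiff ℝ 1 (y k)) (hz : ∀ k, ContDiff ℝ 1 (z k))
    (m : ℕ) : (fun x => d15P m (d15i j y z x)) ∈
      d15G (j + 1) (fun b => if b < 2 * m then 2 else if b = 2 * m then 1 else 0) := by
  induction m with
  | zero =>
    simp only [d15P_zero]
    exact d15G_const _ _ _
  | succ m ih =>
    have h := d15G_mul (j + 1) ih (d15e_mem j y z hy hz (2 * m) (2 * m + 1) (2 * m + 2))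
    have e : (fun x => d15P (m + 1) (d15i j y z x)) = (fun x => d15P m (d15i j y z x)) *
        fun x => (d15e (d15i j y z x (2 * m)) (d15i j y z x (2 * m + 1)) (d15i j y z x (2 * m + 2)) : ℂ) := by
      funext x
      rw [Pi.mul_apply, d15P_succ]
    rw [e]
    refine d15G_mono (j + 1) ?_ h
    intro b
    split_ifs <;> omega

theorem d15_L_phi (j : ℕ) (y : Sq) (u : Fin (j + 1) → ℝ) :
    d15L j y (d15l (j + 1) u) = Phi (j + 1) y u := by
  funext x
  unfold d15L Phi d15l
  simp [Finset.sum_apply]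

theorem d15_L_dphi (j : ℕ) (y : Sq) (a : Fin (j + 1)) (u : Fin (j + 1) → ℝ) :
    d15L j y (d15dl (j + 1) a u) = dPhi (j + 1) y a u := by
  funext x
  unfold d15L dPhi d15dl
  simp [Finset.sum_apply]

theorem d15_L_zero (j : ℕ) (y : Sq) : d15L j y 0 = 0 := by
  unfold d15L
  simp

theorem d15_L_add (j : ℕ) (y : Sq) (c c' : ℕ → ℝ) : d15L j y (c + c') = d15L j y c + d15L j y c' := by
  unfold d15L
  rw [← Finset.sum_add_distrib]
  refine Finset.sum_congr rfl fun i _ => ?_
  rw [Pi.add_apply, add_smul]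

theorem d15_L_sub (j : ℕ) (y : Sq) (c c' : ℕ → ℝ) : d15L j y (c - c') = d15L j y c - d15L j y c' := by
  unfold d15L
  rw [← Finset.sum_sub_distrib]
  refine Finset.sum_congr rfl fun i _ => ?_
  rw [Pi.sub_apply, sub_smul]

theorem d15_i_add (j : ℕ) (y z : Sq) (b : ℕ) (hb : b ≤ j) (x : ℕ → ℕ → ℝ) (w : ℕ → ℝ) :
    d15i j y z (Function.update x b (x b + w))
      = Function.update (d15i j y z x) b (d15i j y z x b + d15L j y w) := by
  funext k
  by_cases hk : k = b
  · subst hk
    rw [Function.update_self]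
    unfold d15i
    rw [if_pos hb, if_pos hb, Function.update_self, d15_L_add]
  · rw [Function.update_of_ne hk]
    unfold d15i
    rw [Function.update_of_ne hk]

theorem d15_i_sub (j : ℕ) (y z : Sq) (b : ℕ) (hb : b ≤ j) (x : ℕ → ℕ → ℝ) (w : ℕ → ℝ) :
    d15i j y z (Function.update x b (x b - w))
      = Function.update (d15i j y z x) b (d15i j y z x b - d15L j y w) := by
  funext k
  by_cases hk : k = b
  · subst hk
    rw [Function.update_self]
    unfold d15i
    rw [if_pos hb, if_pos hb, Function.update_self, d15_L_sub]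
  · rw [Function.update_of_ne hk]
    unfold d15i
    rw [Function.update_of_ne hk]

theorem d15_i_map (m j j' : ℕ) (hj : j' ≤ j + 1) (y z : Sq) (x w : ℕ → ℕ → ℝ) :
    d15dif j' (fun x => d15P m (d15i j y z x)) x w
      = d15dif j' (d15P m) (d15i j y z x) (fun b => d15L j y (w b)) :=
  d15dif_map (d15P m) (d15i j y z) (d15L j y) j' (fun b hb x w => d15_i_add j y z b (by omega) x w)
    (fun b hb x w => d15_i_sub j y z b (by omega) x w) x w

theorem d15_Tp (j : ℕ) (y z : Sq) (u : Fin (j + 1) → ℝ) :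
    d15i j y z (fun _ => d15l (j + 1) u) = Tp j (Phi (j + 1) y u) z := by
  funext k
  unfold d15i Tp
  rw [d15_L_phi]

theorem d15_gF (m j : ℕ) (y z : Sq) (u : Fin (j + 1) → ℝ) :
    gF (fun j => d15dif j (d15P m)) j y z u = d15top j (fun x => d15P m (d15i j y z x)) u := by
  unfold gF d15top
  refine Finset.sum_congr rfl fun σ _ => ?_
  congr 1
  rw [d15_i_map m j (j + 1) le_rfl, d15_Tp]
  refine d15dif_depv _ _ _ _ _ fun b hb => ?_
  unfold dirs
  simp only [hb, dite_true]
  rw [d15_L_dphi]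

theorem d15_fF1 (h10 : ST_D10) (m j : ℕ) (y z : Sq) (a : Fin (j + 1)) (u : Fin j → ℝ) :
    fF (fun j => d15dif j (d15P m)) j (rm a y) z u
      = d15face j (fun x => d15P m (d15i j y z x)) a 1 u := by
  obtain ⟨H1, -, -, H4, -⟩ := h10 j y u
  unfold fF d15face
  refine Finset.sum_congr rfl fun σ _ => ?_
  congr 1
  rw [d15_i_map m j j (by omega), d15_Tp, H1]
  refine d15dif_depv _ _ _ _ _ fun b hb => ?_
  unfold dirs
  simp only [hb, dite_true]
  rw [d15_L_dphi, H4]

theorem d15_fF2 (h10 : ST_D10) (m j : ℕ) (y z : Sq) (u : Fin j → ℝ) :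
    fF (fun j => d15dif j (d15P m)) j (rm (j + 1) y) z u
      = d15face j (fun x => d15P m (d15i j y z x)) (Fin.last j) 0 u := by
  obtain ⟨-, H2, -, -, H5⟩ := h10 j y u
  unfold fF d15face
  refine Finset.sum_congr rfl fun σ _ => ?_
  congr 1
  rw [d15_i_map m j j (by omega), d15_Tp, H2]
  refine d15dif_depv _ _ _ _ _ fun b hb => ?_
  unfold dirs
  simp only [hb, dite_true]
  rw [d15_L_dphi, H5]

theorem d15dif_zdir {A : Type} [AddCommGroup A] (P : (ℕ → A) → ℂ) (j : ℕ) (y v : ℕ → A) (b : ℕ)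
    (hb : b < j) (hv : v b = 0) : d15dif j P y v = 0 := by
  induction j generalizing y with
  | zero => omega
  | succ j ih =>
    rw [d15dif_succ]
    by_cases h : b = j
    · subst h
      rw [hv, add_zero, sub_zero, sub_self, zero_div]
    · rw [ih _ (by omega), ih _ (by omega), sub_zero, zero_div]

theorem d15_fF3 (h10 : ST_D10) (m j : ℕ) (y z : Sq) (a : Fin (j + 1)) (ha : a ≠ Fin.last j)
    (u : Fin j → ℝ) : d15face j (fun x => d15P m (d15i j y z x)) a 0 u = 0 := by
  obtain ⟨-, -, H3, -, -⟩ := h10 j y u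
  unfold d15face
  refine Finset.sum_eq_zero fun σ _ => ?_
  obtain ⟨c, hc⟩ : ∃ c, a.succAbove c = Fin.last j := Fin.exists_succAbove_eq ha.symm
  rw [d15_i_map m j j (by omega)]
  have hb : ((σ.symm c : Fin j) : ℕ) < j := (σ.symm c).2
  rw [d15dif_zdir _ _ _ _ ((σ.symm c : Fin j) : ℕ) hb, mul_zero]
  simp only [hb, dite_true]
  have e : σ ⟨((σ.symm c : Fin j) : ℕ), hb⟩ = c := by
    have : (⟨((σ.symm c : Fin j) : ℕ), hb⟩ : Fin j) = σ.symm c := rfl
    rw [this, Equiv.apply_symm_apply]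
  rw [e, hc, d15_L_dphi, H3 a (Fin.last j) (lt_of_le_of_ne (Fin.le_last a) ha)]
  rfl

theorem d15_m3 (h9 : ST_D9) (h10 : ST_D10) (m j : ℕ) (y z : Sq) (hy : ∀ k, ContDiff ℝ 1 (y k))
    (hz : ∀ k, ContDiff ℝ 1 (z k)) :
    ∑ i ∈ Finset.range (j + 2), (-1 : ℂ) ^ i * cub j (fF (fun j => d15dif j (d15P m)) j (rm i y) z)
      = (-1 : ℂ) ^ j * cub (j + 1) (gF (fun j => d15dif j (d15P m)) j y z) := by
  set G : (ℕ → ℕ → ℝ) → ℂ := fun x => d15P m (d15i j y z x) with hGdef
  have hG : G ∈ d15G (j + 1) (fun _ => 2) := by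
    refine d15G_mono (j + 1) ?_ (d15P_mem j y z hy hz m)
    intro b
    split_ifs <;> omega
  have hs := d15_stokes h9 j G hG
  have e1 : gF (fun j => d15dif j (d15P m)) j y z = d15top j G := funext fun u => d15_gF m j y z u
  have e2 : ∀ a : Fin (j + 1), fF (fun j => d15dif j (d15P m)) j (rm a y) z = d15face j G a 1 :=
    fun a => funext fun u => d15_fF1 h10 m j y z a u
  have e3 : fF (fun j => d15dif j (d15P m)) j (rm (j + 1) y) z = d15face j G (Fin.last j) 0 :=
    funext fun u => d15_fF2 h10 m j y z u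
  have e4 : ∀ a : Fin (j + 1), a ≠ Fin.last j → cub j (d15face j G a 0) = 0 := by
    intro a ha
    have : d15face j G a 0 = fun _ => 0 := funext fun u => d15_fF3 h10 m j y z a ha u
    rw [this]
    unfold cub
    simp
  rw [Finset.sum_range_succ, Finset.sum_range, e3, e1, hs, ← mul_assoc, ← pow_add,
    ← two_mul, pow_mul]
  have hone : ((-1 : ℂ) ^ 2) ^ j = 1 := by simp
  rw [hone, one_mul]
  have e5 : ∑ a : Fin (j + 1), (-1 : ℂ) ^ (a : ℕ) * (cub j (d15face j G a 1) - cub j (d15face j G a 0))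
      = ∑ a : Fin (j + 1), (-1 : ℂ) ^ (a : ℕ) * cub j (d15face j G a 1)
        - ∑ a : Fin (j + 1), (-1 : ℂ) ^ (a : ℕ) * cub j (d15face j G a 0) := by
    rw [← Finset.sum_sub_distrib]
    refine Finset.sum_congr rfl fun a _ => ?_
    ring
  have e6 : ∑ a : Fin (j + 1), (-1 : ℂ) ^ (a : ℕ) * cub j (d15face j G a 0)
      = (-1 : ℂ) ^ j * cub j (d15face j G (Fin.last j) 0) := by
    rw [Finset.sum_eq_single (Fin.last j)]
    · rw [Fin.val_last]
    · intro a _ ha
      rw [e4 a ha, mul_zero]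
    · intro h
      exact absurd (Finset.mem_univ _) h
  rw [e5, e6]
  have e7 : ∑ i : Fin (j + 1), (-1 : ℂ) ^ (i : ℕ) * cub j (fF (fun j => d15dif j (d15P m)) j (rm i y) z)
      = ∑ a : Fin (j + 1), (-1 : ℂ) ^ (a : ℕ) * cub j (d15face j G a 1) :=
    Finset.sum_congr rfl fun a _ => by rw [e2]
  rw [e7, pow_succ]
  ring

/-! ### the value on the diagonal -/

theorem d15M_add_left {a a' b : ℝ → ℝ} (ha : ContDiff ℝ 1 a) (ha' : ContDiff ℝ 1 a')
    (hb : ContDiff ℝ 1 b) : d15M (a + a') b = d15M a b + d15M a' b := by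
  unfold d15M
  rw [d15N_add_left ha ha' hb, d15N_add_right hb ha ha']
  ring

theorem d15M_add_right {a b b' : ℝ → ℝ} (ha : ContDiff ℝ 1 a) (hb : ContDiff ℝ 1 b)
    (hb' : ContDiff ℝ 1 b') : d15M a (b + b') = d15M a b + d15M a b' := by
  rw [d15M_swap (b + b') a, d15M_add_left hb hb' ha, d15M_swap b a, d15M_swap b' a]
  ring

theorem d15M_sub_right {a b b' : ℝ → ℝ} (ha : ContDiff ℝ 1 a) (hb : ContDiff ℝ 1 b)
    (hb' : ContDiff ℝ 1 b') : d15M a (b - b') = d15M a b - d15M a b' := by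
  rw [d15M_swap (b - b') a, d15M_sub_left hb hb' ha, d15M_swap b a, d15M_swap b' a]
  ring

theorem d15e_dd {a b c v w : ℝ → ℝ} (ha : ContDiff ℝ 1 a) (hb : ContDiff ℝ 1 b)
    (hc : ContDiff ℝ 1 c) (hv : ContDiff ℝ 1 v) (hw : ContDiff ℝ 1 w) :
    (d15e (a + v) (b + w) c - d15e (a - v) (b + w) c
      - (d15e (a + v) (b - w) c - d15e (a - v) (b - w) c)) / 4 = d15M v w / 2 := by
  have hbw : ContDiff ℝ 1 (b + w) := hb.add hw
  have hbw' : ContDiff ℝ 1 (b - w) := hb.sub hw
  have e1 : d15M (a + v) (b + w) = d15M a b + d15M a w + (d15M v b + d15M v w) := by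
    rw [d15M_add_left ha hv hbw, d15M_add_right ha hb hw, d15M_add_right hv hb hw]
  have e2 : d15M (a - v) (b + w) = d15M a b + d15M a w - (d15M v b + d15M v w) := by
    rw [d15M_sub_left ha hv hbw, d15M_add_right ha hb hw, d15M_add_right hv hb hw]
  have e3 : d15M (a + v) (b - w) = d15M a b - d15M a w + (d15M v b - d15M v w) := by
    rw [d15M_add_left ha hv hbw', d15M_sub_right ha hb hw, d15M_sub_right hv hb hw]
  have e4 : d15M (a - v) (b - w) = d15M a b - d15M a w - (d15M v b - d15M v w) := by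
    rw [d15M_sub_left ha hv hbw', d15M_sub_right ha hb hw, d15M_sub_right hv hb hw]
  unfold d15e
  rw [e1, e2, e3, e4]
  ring

theorem d15_val (m : ℕ) (y v : Sq) (hy : ∀ k, ContDiff ℝ 1 (y k)) (hv : ∀ k, ContDiff ℝ 1 (v k)) :
    d15dif (2 * m) (d15P m) y v
      = ∏ i ∈ Finset.range m, ((d15M (v (2 * i)) (v (2 * i + 1)) / 2 : ℝ) : ℂ) := by
  induction m generalizing y with
  | zero => simp [d15dif, d15P_zero]
  | succ m ih =>
    have key : ∀ a b : ℝ → ℝ, ContDiff ℝ 1 a → ContDiff ℝ 1 b →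
        d15dif (2 * m) (d15P (m + 1)) (Function.update (Function.update y (2 * m + 1) b) (2 * m) a) v
          = (∏ i ∈ Finset.range m, ((d15M (v (2 * i)) (v (2 * i + 1)) / 2 : ℝ) : ℂ))
            * (d15e a b (y (2 * m + 2)) : ℂ) := by
      intro a b ha hb
      have e : d15P (m + 1) = fun y => d15P m y *
          (d15e (y (2 * m)) (y (2 * m + 1)) (y (2 * m + 2)) : ℂ) := funext fun y => d15P_succ m y
      rw [e, d15dif_mul_const (d15P m) (fun y => (d15e (y (2 * m)) (y (2 * m + 1)) (y (2 * m + 2)) : ℂ))]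
      · rw [ih]
        · congr 2
          congr 1
          · rw [Function.update_self]
          · rw [Function.update_of_ne (by omega), Function.update_self]
          · rw [Function.update_of_ne (by omega), Function.update_of_ne (by omega)]
        · intro k
          by_cases h1 : k = 2 * m
          · rw [h1, Function.update_self]
            exact ha
          · rw [Function.update_of_ne h1]
            by_cases h2 : k = 2 * m + 1
            · rw [h2, Function.update_self]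
              exact hb
            · rw [Function.update_of_ne h2]
              exact hy k
      · intro b hb y w
        rw [Function.update_of_ne (by omega), Function.update_of_ne (by omega),
          Function.update_of_ne (by omega)]
    have e2 : 2 * (m + 1) = (2 * m + 1) + 1 := by ring
    rw [e2, d15dif_succ, d15dif_succ, d15dif_succ]
    have u1 : ∀ w : ℝ → ℝ, Function.update y (2 * m + 1) w (2 * m) = y (2 * m) := fun w =>
      Function.update_of_ne (by omega) _ _
    have hp : ∀ k, ContDiff ℝ 1 (y k + v k) := fun k => (hy k).add (hv k)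
    have hm : ∀ k, ContDiff ℝ 1 (y k - v k) := fun k => (hy k).sub (hv k)
    rw [u1, u1, key _ _ (hp _) (hp _), key _ _ (hm _) (hp _),
      key _ _ (hp _) (hm _), key _ _ (hm _) (hm _), Finset.prod_range_succ]
    have h := d15e_dd (hy (2 * m)) (hy (2 * m + 1)) (hy (2 * m + 2)) (hv (2 * m)) (hv (2 * m + 1))
    rw [← h]
    push_cast
    ring

/-! ### levels -/

theorem d15_AA (h1 : ST_D1) (n : ℕ) (hn : 1 ≤ n) : ∃ R : ℝ, 0 ≤ R ∧ ∀ Φ ∈ AA n, d15B 1 R Φ := by
  obtain ⟨ρ, s, M, hI⟩ := h1 n hn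
  refine ⟨M, hI.pos.2.2.2.le, fun Φ hΦ => ?_⟩
  have hl : IsLift Φ := hΦ.1
  refine ⟨⟨?_, hl.per⟩, fun x => ?_⟩
  · rw [contDiff_iff_contDiffAt]
    exact fun x => (hl.an x).contDiffAt
  · have hρ : 0 < ρ := lt_of_lt_of_le hI.pos.1 hI.pos.2.1
    have hx : (x : ℂ) ∈ St (2 * ρ) := by
      unfold St
      simp only [Set.mem_ofPred_eq, Complex.ofReal_im, abs_zero]
      positivity
    have hopen : IsOpen (St (2 * ρ)) := isOpen_St (2 * ρ)
    have hd : HasDerivAt (cx Φ) (deriv (cx Φ) x) (x : ℂ) :=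
      ((hI.hol Φ hΦ).differentiableAt (hopen.mem_nhds hx)).hasDerivAt
    have hd2 : HasDerivAt (fun t : ℝ => cx Φ (t : ℂ)) (deriv (cx Φ) x) x := hd.comp_ofReal
    have e : (fun t : ℝ => cx Φ (t : ℂ)) = fun t : ℝ => (Φ t : ℂ) := funext fun t => hI.real Φ hΦ t
    rw [e] at hd2
    have hd3 : HasDerivAt (fun t : ℝ => (Φ t : ℂ)) ((deriv Φ x : ℝ) : ℂ) x :=
      (hl.diff x).hasDerivAt.ofReal_comp
    have h4 := hd2.unique hd3
    have h5 := hI.lip Φ hΦ x hx
    rw [h4, Complex.norm_real] at h5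
    exact h5

theorem d15_VV (n : ℕ) (R : ℝ) (h : ∀ Φ ∈ AA n, d15B 1 R Φ) (K : ℝ) (v : ℝ → ℝ) (hv : v ∈ VV n K) :
    d15B 0 (|K| * (2 * R)) v := by
  obtain ⟨⟨Φ, hΦ, Ψ, hΨ, rfl⟩, -⟩ := hv
  have h1 := h Φ hΦ
  have h2 := h Ψ hΨ
  refine ⟨⟨contDiff_const.mul (h1.c1.sub h2.c1), fun x => ?_⟩, fun x => ?_⟩
  · simp only [h1.per, h2.per]
    ring
  · have e : deriv (fun x => K * (Φ x - Ψ x)) x = K * (deriv Φ x - deriv Ψ x) :=
      (((h1.c1.differentiable one_ne_zero x).hasDerivAt.sub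
        (h2.c1.differentiable one_ne_zero x).hasDerivAt).const_mul K).deriv
    rw [e, abs_mul]
    refine mul_le_mul_of_nonneg_left ?_ (abs_nonneg K)
    have := abs_sub (deriv Φ x) (deriv Ψ x)
    linarith [h1.bd x, h2.bd x]

/-- D15 -/
theorem st_D15 (h1 : ST_D1) (h9 : ST_D9) (h10 : ST_D10) : ST_D15 := by
  intro n m hn
  obtain ⟨R, hR, hAA⟩ := d15_AA h1 n hn
  have hVV := d15_VV n R hAA
  refine ⟨fun j => d15dif j (d15P m), ?_, ?_, ?_⟩
  · constructor
    · intro j hj y y' v h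
      exact d15dif_dep (2 * m) (d15P m) (fun y y' h => d15P_dep m y y' h) j (by omega) y y' v h
    · intro j _ y v v' h
      exact d15dif_depv (d15P m) j y v v' h
    · intro j hj K ε hε
      obtain ⟨C, hC, hlip⟩ := d15dif_lip m j hj R (|K| * (2 * R)) hR (by positivity)
      refine ⟨ε / (C + 1), by positivity, ?_⟩
      intro y y' v v' hy hy' hv hv' hc hcv
      have h := hlip y y' v v' (ε / (C + 1)) (by positivity) (fun k => hAA _ (hy k))
        (fun k => hAA _ (hy' k)) (fun b => hVV K _ (hv b)) (fun b => hVV K _ (hv' b)) hc hcv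
      refine le_trans h ?_
      rw [mul_div_assoc', div_le_iff₀ (by positivity)]
      nlinarith
    · intro j _ y v t s K hy hv
      exact d15dif_tinv m j y v t s (fun k => (hAA _ (hy k)).tod15D) fun b => (hVV K _ (hv b)).tod15D
    · intro j _ y v g K hg hy hv _ _
      exact d15dif_rinv m j y v g hg (fun k => (hAA _ (hy k)).tod15D) fun b => (hVV K _ (hv b)).tod15D
    · intro j hj y v K _ _
      exact d15dif_m2 (2 * m) (d15P m) (fun y => d15P_cocycle m y) j (by omega) y v
    · intro j _ y z hy hz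
      exact d15_m3 h9 h10 m j y z (fun k => (hAA _ (hy k)).c1) fun k => (hAA _ (hz k)).c1
  · intro y v hy
    exact d15P_eq m y fun k => (hAA _ (hy k)).tod15D
  · intro Φ hΦ K v hv
    have h := d15_val m (fun _ => Φ) v (fun _ => (hAA Φ hΦ).c1) fun b => (hVV K _ (hv b)).c1
    refine h.trans ?_
    refine Finset.prod_congr rfl fun i _ => ?_
    congr 1
    have hp := d15N_parts (hVV K _ (hv (2 * i))).c1 (hVV K _ (hv (2 * i + 1))).c1
    rw [(hVV K _ (hv (2 * i))).one, (hVV K _ (hv (2 * i + 1))).one] at hp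
    unfold d15M
    have e : d15N (v (2 * i)) (v (2 * i + 1)) = ∫ x in (0 : ℝ)..1, v (2 * i) x * deriv (v (2 * i + 1)) x :=
      rfl
    rw [← e]
    linear_combination -(1 / 2 : ℝ) * hp

end

end Pool.Agent.Helper67.DO
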