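import Pool.Agent.Helper67.DO.BaseE

set_option autoImplicit false

/-!
# X4a: decomposition of cocycles modulo `X_k`, degree `< 3`
-/

namespace Pool.Agent.Helper67.DO

open scoped BigOperators Real

noncomputable section

/-- the properties of the homotopy operator in `ST_X1` -/
def x4aHP (b0 y e0 : ℝ) (hop : (q : ℕ) → ((Fin q → ℂ) → ℂ) → ((Fin (q + 1) → ℂ) → ℂ)) : Prop :=
  ∀ w h : ℝ, 0 ≤ w → 0 < h → b0 + w < y → y < e0 - w →
  ∀ V : Set ℂ, IsOpen V → Per V → (∀ z ∈ V, ¬ InR b0 e0 z) →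
    (∀ q F, BO q (V ∪ RR b0 e0 w h) F → BO (q + 1) (V ∪ RR b0 e0 w h) (hop q F)) ∧
    (∃ C : ℕ → ℝ, ∀ q F, BO q (V ∪ RR b0 e0 w h) F → ∀ B : ℝ, (∀ z ∈ PU q (V ∪ RR b0 e0 w h), ‖F z‖ ≤ B) →
      ∀ z ∈ PU (q + 1) (V ∪ RR b0 e0 w h), ‖hop q F z‖ ≤ C q * B) ∧
    (∀ q F G (c : ℂ), BO q (V ∪ RR b0 e0 w h) F → BO q (V ∪ RR b0 e0 w h) G →
      ∀ z ∈ PU (q + 1) (V ∪ RR b0 e0 w h), hop q (fun x => c * F x + G x) z = c * hop q F z + hop q G z) ∧
    (∀ q F, BO (q + 1) (V ∪ RR b0 e0 w h) F → ∀ z ∈ PU (q + 1) (V ∪ RR b0 e0 w h),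
      dd (q + 1) (hop (q + 1) F) z + hop q (dd q F) z = F z - PiE b0 e0 y (q + 1) F z)

theorem x4a_X1 (h1 : ST_X1) (b0 y e0 : ℝ) (h : b0 < y) (h' : y < e0) (h'' : e0 ≤ b0 + 1) :
    ∃ hop, x4aHP b0 y e0 hop := h1 b0 y e0 h h' h''

/-- composition with the homotopy operator -/
theorem x4a_hopFnl {b0 y e0 : ℝ} {hop : (q : ℕ) → ((Fin q → ℂ) → ℂ) → ((Fin (q + 1) → ℂ) → ℂ)}
    (hH : x4aHP b0 y e0 hop) {w h : ℝ} (hw : 0 ≤ w) (hh : 0 < h) (hy : b0 + w < y) (hy' : y < e0 - w)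
    {V U : Set ℂ} (hV : IsOpen V) (hVp : Per V) (hVI : ∀ z ∈ V, ¬ InR b0 e0 z)
    (hU : U = V ∪ RR b0 e0 w h) {q : ℕ} {β : ((Fin (q + 1) → ℂ) → ℂ) → ℂ} (hβ : Fnl (q + 1) U β) :
    Fnl q U (fun F => β (hop q F)) := by
  obtain ⟨A, ⟨C, hC⟩, L, -⟩ := hH w h hw hh hy hy' V hV hVp hVI
  rw [← hU] at A hC L
  have L1 : ∀ F G (c : ℂ), BO q U F → BO q U G →
      β (hop q (fun x => c * F x + G x)) = c * β (hop q F) + β (hop q G) := by
    intro F G c hF hG
    have a := A q F hF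
    have b := A q G hG
    have d := A q _ ((hF.smul c).add hG)
    rw [← hβ.smul c _ a, ← hβ.add _ _ (a.smul c) b]
    exact hβ.ext' d ((a.smul c).add b) fun z hz => L q F G c hF hG z hz
  refine ⟨fun F G hF hG => ?_, fun c F hF => ?_, ?_⟩
  · have := L1 F G 1 hF hG
    simpa using this
  · have h0 := L1 F (fun _ => 0) c hF (BO.zero q U)
    have h1 := L1 F (fun _ => 0) 1 hF (BO.zero q U)
    simp only [add_zero, one_mul] at h0 h1
    have h2 : β (hop q (fun _ => 0)) = 0 := by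
      linear_combination -h1
    rw [h2, add_zero] at h0
    exact h0
  · obtain ⟨D, hD, K⟩ := hβ.bdd
    refine ⟨D * |C q|, by positivity, fun F hF M hM hM0 => ?_⟩
    have a := K _ (A q F hF) (|C q| * M) (fun z hz => le_trans (hC q F hF M hM z hz)
      (mul_le_mul_of_nonneg_right (le_abs_self _) hM0)) (by positivity)
    calc _ ≤ _ := a
      _ = _ := by ring

theorem x4a_RR_InR {b0 e0 w h : ℝ} (hw : 0 ≤ w) {z : ℂ} (hz : z ∈ RR b0 e0 w h) : InR b0 e0 z := by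
  obtain ⟨-, k, h1, h2⟩ := hz
  exact ⟨k, by linarith, by linarith⟩

/-- composition with extension by zero -/
theorem x4a_extFnl {b0 e0 w h : ℝ} (hw : 0 ≤ w) {V U : Set ℂ} (hU : U = V ∪ RR b0 e0 w h) {q : ℕ}
    (hE : ∀ F, BO q V F → BO q U (ext0 b0 e0 F)) {β : ((Fin q → ℂ) → ℂ) → ℂ} (hβ : Fnl q U β) :
    Fnl q V (fun F => β (ext0 b0 e0 F)) := by
  refine ⟨fun F G hF hG => ?_, fun c F hF => ?_, ?_⟩
  · rw [← hβ.add _ _ (hE F hF) (hE G hG)]
    congr 1
    funext z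
    unfold ext0
    split_ifs <;> simp
  · rw [← hβ.smul c _ (hE F hF)]
    congr 1
    funext z
    unfold ext0
    split_ifs <;> simp
  · obtain ⟨D, hD, K⟩ := hβ.bdd
    refine ⟨D, hD, fun F hF M hM hM0 => ?_⟩
    refine K _ (hE F hF) M (fun z hz => ?_) hM0
    unfold ext0
    split_ifs with hc
    · refine hM z fun j => ?_
      have hj := hz j
      rw [hU] at hj
      rcases hj with hj | hj
      · exact hj
      · exact absurd (x4a_RR_InR hw hj) (hc j)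
    · rw [norm_zero]
      exact hM0

theorem x4a_num {N : ℕ} (hN : 0 < N) {b m e : ℤ} (hme : m < e) (hbm : b < m) (heb : e ≤ b + N) :
    (m : ℝ) / N < yy N m ∧ yy N m < (e : ℝ) / N ∧ (e : ℝ) / N ≤ (m : ℝ) / N + 1 ∧
    ∀ w : ℝ, w < 1 / (4 * N) → (m : ℝ) / N + w < yy N m ∧ yy N m < (e : ℝ) / N - w := by
  have hN' : (0 : ℝ) < N := Nat.cast_pos.2 hN
  have h1 : (m : ℝ) + 1 ≤ e := by exact_mod_cast hme
  have h2 : (e : ℝ) ≤ m + N := by
    have : e ≤ m + N := by linarith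
    exact_mod_cast this
  have e1 : yy N m = (m : ℝ) / N + 1 / (2 * N) := by
    unfold yy
    field_simp
  have h3 : (m : ℝ) / N + 1 / N ≤ (e : ℝ) / N := by
    rw [← add_div]
    exact div_le_div_of_nonneg_right h1 hN'.le
  have h4 : (e : ℝ) / N ≤ (m : ℝ) / N + 1 := by
    rw [div_add_one hN'.ne']
    exact div_le_div_of_nonneg_right h2 hN'.le
  have h5 : (1 : ℝ) / N = 1 / (2 * N) + 1 / (2 * N) := by
    field_simp
    norm_num
  have h6 : (1 : ℝ) / (4 * N) < 1 / (2 * N) := by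
    apply one_div_lt_one_div_of_lt (by positivity)
    linarith
  have h7 : (0 : ℝ) < 1 / (2 * N) := by positivity
  refine ⟨by rw [e1]; linarith, by rw [e1]; linarith, h4, fun w hw => ⟨by rw [e1]; linarith, ?_⟩⟩
  rw [e1]
  linarith

theorem x4a_Pi (b0 e0 y : ℝ) (q : ℕ) (hq : q < 2) (F : (Fin (q + 1) → ℂ) → ℂ) :
    PiE b0 e0 y (q + 1) F = ext0 b0 e0 F := by
  match q, hq, F with
  | 0, _, _ => rfl
  | 1, _, _ => rfl
  | q + 2, hq, _ => omega

/-- X4a -/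
theorem st_X4a (hE1 : ST_E1) (h1 : ST_X1) (h2 : ST_X2) (h3 : ST_X3) : ST_X4a := by
  intro N k n b m e hN hb hkm hme heb hn
  refine Loss.of fun w' h' w h hw' hww hw4 hh hhh => ?_
  intro α hα hco
  have hbm : b < m := by omega
  obtain ⟨n1, n2, n3, n4⟩ := x4a_num hN hme hbm heb
  set b0 : ℝ := (m : ℝ) / N with hb0
  set e0 : ℝ := (e : ℝ) / N with he0
  obtain ⟨hop, hH⟩ := x4a_X1 h1 b0 (yy N m) e0 n1 n2 n3
  have hw : 0 < w := hw'.trans hww
  -- domains
  have hdom : ∀ v g : ℝ, 0 < v → v < 1 / (4 * N) → 0 < g →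
      US N (PI N b e {m}) (GI N b e) v g = US N (PI N b m ∅) (GI N b m) v g ∪ RR b0 e0 v g ∧
      (∀ z ∈ US N (PI N b m ∅) (GI N b m) v g, ¬ InR b0 e0 z) ∧
      IsOpen (US N (PI N b m ∅) (GI N b m) v g) ∧ Per (US N (PI N b m ∅) (GI N b m) v g) := by
    intro v g hv hv4 hg
    have H := h3 N b m e ∅ v g hN hbm hme heb (by intro i hi; exact absurd hi (Set.notMem_empty i))
      hv hv4 hg
    rw [Set.union_empty] at H
    exact ⟨H.1, H.2.1, H.2.2.2.1, H.2.2.2.2⟩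
  have hdomi : ∀ i : ℕ, i < k → ∀ v g : ℝ, 0 < v → v < 1 / (4 * N) → 0 < g →
      US N (PI N b e {m} ∪ pcl N {(i : ℤ)}) (GI N b e) v g
        = US N (PI N b m ∅ ∪ pcl N {(i : ℤ)}) (GI N b m) v g ∪ RR b0 e0 v g ∧
      (∀ z ∈ US N (PI N b m ∅ ∪ pcl N {(i : ℤ)}) (GI N b m) v g, ¬ InR b0 e0 z) ∧
      IsOpen (US N (PI N b m ∅ ∪ pcl N {(i : ℤ)}) (GI N b m) v g) ∧
      Per (US N (PI N b m ∅ ∪ pcl N {(i : ℤ)}) (GI N b m) v g) := by
    intro i hi v g hv hv4 hg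
    have H := h3 N b m e {(i : ℤ)} v g hN hbm hme heb
      (by
        intro j hj
        rw [Set.mem_singleton_iff] at hj
        omega) hv hv4 hg
    rw [PI_union, PI_union, Set.empty_union]
    exact ⟨H.1, H.2.1, H.2.2.2.1, H.2.2.2.2⟩
  -- extension by zero
  have hext : ∀ v g : ℝ, 0 < v → v < 1 / (4 * N) → 0 < g → ∀ V : Set ℂ, IsOpen V → Per V →
      (∀ z ∈ V, ¬ InR b0 e0 z) →
      (∀ q F, BO q V F → BO q (V ∪ RR b0 e0 v g) (ext0 b0 e0 F)) ∧
      (∀ q F, BO (q + 1) V F → ∀ z ∈ PU q (V ∪ RR b0 e0 v g),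
        dd q (ext0 b0 e0 F) z = ext0 b0 e0 (dd q F) z) := by
    intro v g hv hv4 hg V hV hVp hVI
    obtain ⟨-, -, -, H4, H5, -⟩ := h2 b0 (yy N m) e0 e0 v g (n4 v hv4).1 (n4 v hv4).2 le_rfl n3 hv.le hg V hV
      hVp hVI
    exact ⟨H4, H5⟩
  obtain ⟨D1, D2, D3, D4⟩ := hdom w h hw hw4 hh
  have hs : Shape N (PI N b e {m}) (GI N b e) := Shape_PI N b e {m}
  have hsm : Shape N (PI N b m ∅) (GI N b m) := Shape_PI N b m ∅
  obtain ⟨E1, E2⟩ := hext w h hw hw4 hh _ D3 D4 D2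
  obtain ⟨β, k1, k2⟩ := hco
  have hβ0 : Fnl n (US N (PI N b m ∅) (GI N b m) w h) (fun F => α (ext0 b0 e0 F)) :=
    x4a_extFnl hw.le D1 (fun F hF => by
      rw [D1]
      exact E1 n F hF) hα
  refine ⟨fun F => α (ext0 b0 e0 F), hβ0.mono' (US_mono le_rfl le_rfl hww.le hhh.le), ?_, ?_⟩
  · -- cocycle
    have : CocX N k n (PI N b m ∅) (GI N b m) w h (fun F => α (ext0 b0 e0 F)) := by
      refine ⟨fun i F => β i (ext0 b0 e0 F), fun i hi => ?_, ?_⟩
      · obtain ⟨Di1, Di2, Di3, Di4⟩ := hdomi i hi w h hw hw4 hh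
        obtain ⟨Ei, -⟩ := hext w h hw hw4 hh _ Di3 Di4 Di2
        exact x4a_extFnl hw.le Di1 (fun F hF => by
          rw [Di1]
          exact Ei (n + 1) F hF) (k1 i hi)
      · intro w1 g1 hw1 hw1w hg1 F hF
        obtain ⟨A1, A2, A3, A4⟩ := hdom w1 g1 hw1 (hw1w.trans hw4) (hh.trans hg1)
        obtain ⟨B1, -⟩ := hext w1 g1 hw1 (hw1w.trans hw4) (hh.trans hg1) _ A3 A4 A2
        have hF' : BO (n + 1) (US N (PI N b e {m}) (GI N b e) w1 g1) (ext0 b0 e0 F) := by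
          rw [A1]
          exact B1 (n + 1) F hF
        have hk := k2 w1 g1 hw1 hw1w hg1 _ hF'
        have hsub : US N (PI N b m ∅) (GI N b m) w h ⊆ US N (PI N b m ∅) (GI N b m) w1 g1 :=
          US_mono le_rfl le_rfl hw1w.le hg1.le
        have hF2 : BO (n + 1) (US N (PI N b m ∅) (GI N b m) w h) F := hF.mono hsub
        have hddF : BO n (US N (PI N b m ∅) (GI N b m) w h) (dd n F) :=
          dd_BO hE1 hN hsm hw1.le hw1w hg1 hF
        show α (ext0 b0 e0 (dd n F)) = ∑ i ∈ Finset.range k, β i (ext0 b0 e0 F)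
        rw [← hk]
        refine hα.ext' ?_ ?_ ?_
        · rw [D1]
          exact E1 n _ hddF
        · exact dd_BO hE1 hN hs hw1.le hw1w hg1 hF'
        · intro z hz
          rw [D1] at hz
          exact (E2 n F hF2 z hz).symm
    exact this.mono le_rfl le_rfl le_rfl hww.le hhh.le
  · -- exactness
    cases n with
    | zero =>
      refine ExX.of_SumX ((SumX.zero N k 0 _ _ w' h').congr ?_)
      intro w1 g1 _ _ _ F _
      have e : ext0 b0 e0 F = F := by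
        funext z
        unfold ext0
        rw [if_pos fun j => j.elim0]
      show α F - α (ext0 b0 e0 F) = 0
      rw [e, sub_self]
    | succ q =>
      have hPi : ∀ F : (Fin (q + 1) → ℂ) → ℂ, PiE b0 e0 (yy N m) (q + 1) F = ext0 b0 e0 F := by
        intro F
        exact x4a_Pi b0 e0 (yy N m) q (by omega) F
      obtain ⟨P1, -, -, P4⟩ := hH w h hw.le hh (n4 w hw4).1 (n4 w hw4).2 _ D3 D4 D2
      rw [← D1] at P1 P4
      have hγ : Fnl q (US N (PI N b e {m}) (GI N b e) w h) (fun F => α (hop q F)) :=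
        x4a_hopFnl hH hw.le hh (n4 w hw4).1 (n4 w hw4).2 D3 D4 D2 D1 hα
      have hex : ExX N k (q + 1) (PI N b e {m}) (GI N b e) w h (fun F => α F - α (ext0 b0 e0 F)) := by
        refine ⟨fun F => α (hop q F), hγ, ?_⟩
        refine ⟨fun i F => β i (hop (q + 1) F), fun i hi => ?_, ?_⟩
        · obtain ⟨Di1, Di2, Di3, Di4⟩ := hdomi i hi w h hw hw4 hh
          exact x4a_hopFnl hH hw.le hh (n4 w hw4).1 (n4 w hw4).2 Di3 Di4 Di2 Di1 (k1 i hi)
        · intro w1 g1 hw1 hw1w hg1 F hF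
          obtain ⟨A1, A2, A3, A4⟩ := hdom w1 g1 hw1 (hw1w.trans hw4) (hh.trans hg1)
          obtain ⟨Q1, -, -, -⟩ := hH w1 g1 hw1.le (hh.trans hg1) (n4 w1 (hw1w.trans hw4)).1
            (n4 w1 (hw1w.trans hw4)).2 _ A3 A4 A2
          rw [← A1] at Q1
          have hsub : US N (PI N b e {m}) (GI N b e) w h ⊆ US N (PI N b e {m}) (GI N b e) w1 g1 :=
            US_mono le_rfl le_rfl hw1w.le hg1.le
          have hF2 : BO (q + 1) (US N (PI N b e {m}) (GI N b e) w h) F := hF.mono hsub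
          have hk := k2 w1 g1 hw1 hw1w hg1 _ (Q1 (q + 1) F hF)
          have f1 : BO (q + 1) (US N (PI N b e {m}) (GI N b e) w h) (ext0 b0 e0 F) := by
            rw [D1]
            refine E1 (q + 1) F (hF2.mono ?_)
            rw [D1]
            exact Set.subset_union_left
          have f2 : BO (q + 1) (US N (PI N b e {m}) (GI N b e) w h) (dd (q + 1) (hop (q + 1) F)) :=
            dd_BO hE1 hN hs hw1.le hw1w hg1 (Q1 (q + 1) F hF)
          have f3 : BO (q + 1) (US N (PI N b e {m}) (GI N b e) w h) (hop q (dd q F)) :=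
            P1 q _ (dd_BO hE1 hN hs hw1.le hw1w hg1 hF)
          show α F - α (ext0 b0 e0 F) - α (hop q (dd q F)) = ∑ i ∈ Finset.range k, β i (hop (q + 1) F)
          rw [← hk]
          have key : α F = α (fun z => ext0 b0 e0 F z + (dd (q + 1) (hop (q + 1) F) z + hop q (dd q F) z)) := by
            refine hα.ext' hF2 (f1.add (f2.add f3)) fun z hz => ?_
            have := P4 q F hF2 z hz
            rw [hPi] at this
            rw [this]
            ring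
          rw [key, hα.add _ _ f1 (f2.add f3), hα.add _ _ f2 f3]
          ring
      exact hex.mono le_rfl le_rfl le_rfl hww.le hhh.le

end

end Pool.Agent.Helper67.DO
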