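import Pool.Agent.Helper67.DO.StmtsD

set_option autoImplicit false

/-!
# D15, part a: iterated symmetric differences
-/

namespace Pool.Agent.Helper67.DO

open scoped BigOperators

noncomputable section

/-- iterated symmetric differences in the entries `0..j-1` -/
def d15dif {A : Type} [AddCommGroup A] : ℕ → ((ℕ → A) → ℂ) → (ℕ → A) → (ℕ → A) → ℂ
  | 0, P, y, _ => P y
  | j + 1, P, y, v => (d15dif j P (Function.update y j (y j + v j)) v
      - d15dif j P (Function.update y j (y j - v j)) v) / 2

section

variable {A B : Type} [AddCommGroup A] [AddCommGroup B]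

theorem d15dif_succ (j : ℕ) (P : (ℕ → A) → ℂ) (y v : ℕ → A) :
    d15dif (j + 1) P y v = (d15dif j P (Function.update y j (y j + v j)) v
      - d15dif j P (Function.update y j (y j - v j)) v) / 2 := rfl

theorem d15dif_dep (p : ℕ) (P : (ℕ → A) → ℂ) (hP : ∀ y y' : ℕ → A, (∀ k ≤ p, y k = y' k) → P y = P y')
    (j : ℕ) (hj : j ≤ p + 1) (y y' v : ℕ → A) (h : ∀ k ≤ p, y k = y' k) :
    d15dif j P y v = d15dif j P y' v := by
  induction j generalizing y y' with
  | zero => exact hP y y' h
  | succ j ih =>
    have hj' : j ≤ p := by omega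
    rw [d15dif_succ, d15dif_succ, h j hj']
    have key : ∀ w : A, ∀ k ≤ p, Function.update y j w k = Function.update y' j w k := by
      intro w k hk
      by_cases hkj : k = j
      · subst hkj
        simp
      · simp [hkj, h k hk]
    rw [ih (by omega) _ _ (key _), ih (by omega) _ _ (key _)]

theorem d15dif_depv (P : (ℕ → A) → ℂ) (j : ℕ) (y v v' : ℕ → A) (h : ∀ b < j, v b = v' b) :
    d15dif j P y v = d15dif j P y v' := by
  induction j generalizing y with
  | zero => rfl
  | succ j ih =>
    rw [d15dif_succ, d15dif_succ, h j (Nat.lt_succ_self j), ih _ fun b hb => h b (by omega),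
      ih _ fun b hb => h b (by omega)]

theorem d15dif_add (P Q : (ℕ → A) → ℂ) (j : ℕ) (y v : ℕ → A) :
    d15dif j (fun y => P y + Q y) y v = d15dif j P y v + d15dif j Q y v := by
  induction j generalizing y with
  | zero => rfl
  | succ j ih =>
    rw [d15dif_succ, d15dif_succ, d15dif_succ, ih, ih]
    ring

theorem d15dif_smul (c : ℂ) (P : (ℕ → A) → ℂ) (j : ℕ) (y v : ℕ → A) :
    d15dif j (fun y => c * P y) y v = c * d15dif j P y v := by
  induction j generalizing y with
  | zero => rfl
  | succ j ih =>
    rw [d15dif_succ, d15dif_succ, ih, ih]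
    ring

theorem d15dif_zero (j : ℕ) (y v : ℕ → A) : d15dif j (fun _ => (0 : ℂ)) y v = 0 := by
  induction j generalizing y with
  | zero => rfl
  | succ j ih =>
    rw [d15dif_succ, ih, ih]
    ring

/-- naturality -/
theorem d15dif_map (P : (ℕ → B) → ℂ) (ι : (ℕ → A) → (ℕ → B)) (f : A → B) (j : ℕ)
    (h : ∀ b < j, ∀ (x : ℕ → A) (w : A), ι (Function.update x b (x b + w)) = Function.update (ι x) b (ι x b + f w))
    (h' : ∀ b < j, ∀ (x : ℕ → A) (w : A), ι (Function.update x b (x b - w)) = Function.update (ι x) b (ι x b - f w))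
    (x w : ℕ → A) :
    d15dif j (fun x => P (ι x)) x w = d15dif j P (ι x) (fun b => f (w b)) := by
  induction j generalizing x with
  | zero => rfl
  | succ j ih =>
    rw [d15dif_succ, d15dif_succ, ih (fun b hb => h b (by omega)) (fun b hb => h' b (by omega)),
      ih (fun b hb => h b (by omega)) (fun b hb => h' b (by omega)), h j (by omega), h' j (by omega)]

/-- a factor which does not depend on the entries `< j` -/
theorem d15dif_mul_const (P Q : (ℕ → A) → ℂ) (j : ℕ)
    (hQ : ∀ b < j, ∀ (y : ℕ → A) (w : A), Q (Function.update y b w) = Q y) (y v : ℕ → A) :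
    d15dif j (fun y => P y * Q y) y v = d15dif j P y v * Q y := by
  induction j generalizing y with
  | zero => rfl
  | succ j ih =>
    rw [d15dif_succ, d15dif_succ, ih (fun b hb => hQ b (by omega)), ih (fun b hb => hQ b (by omega)),
      hQ j (by omega), hQ j (by omega)]
    ring

theorem d15dif_prod (N : ℕ) (g : ℕ → A → ℂ) (j : ℕ) (hj : j ≤ N) (y v : ℕ → A) :
    d15dif j (fun y => ∏ b ∈ Finset.range N, g b (y b)) y v =
      (∏ b ∈ Finset.range j, (g b (y b + v b) - g b (y b - v b)) / 2) *
        ∏ b ∈ Finset.Ico j N, g b (y b) := by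
  induction j generalizing y with
  | zero =>
    rw [Finset.range_eq_Ico]
    simp [d15dif]
  | succ j ih =>
    rw [d15dif_succ, ih (by omega), ih (by omega)]
    have h1 : ∀ w : A, ∏ b ∈ Finset.range j, (g b (Function.update y j w b + v b)
        - g b (Function.update y j w b - v b)) / 2
        = ∏ b ∈ Finset.range j, (g b (y b + v b) - g b (y b - v b)) / 2 := by
      intro w
      refine Finset.prod_congr rfl fun b hb => ?_
      have hb' : b ≠ j := by
        have := Finset.mem_range.1 hb
        omega
      rw [Function.update_of_ne hb']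
    have h2 : ∀ w : A, ∏ b ∈ Finset.Ico j N, g b (Function.update y j w b)
        = g j w * ∏ b ∈ Finset.Ico (j + 1) N, g b (y b) := by
      intro w
      rw [Finset.prod_eq_prod_Ico_succ_bot (by omega : j < N)]
      rw [Function.update_self]
      congr 1
      refine Finset.prod_congr rfl fun b hb => ?_
      have hb' : b ≠ j := by
        have := Finset.mem_Ico.1 hb
        omega
      rw [Function.update_of_ne hb']
    rw [h1, h1, h2, h2, Finset.prod_range_succ]
    ring

end

/-! ### removing an entry -/

theorem d15_rm_update_eq (j : ℕ) (y : Sq) (w : ℝ → ℝ) : rm j (Function.update y j w) = rm j y := by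
  funext k
  unfold rm
  by_cases hk : k < j
  · rw [if_pos hk, if_pos hk, Function.update_of_ne (by omega)]
  · rw [if_neg hk, if_neg hk, Function.update_of_ne (by omega)]

theorem d15_rm_update_lt (j i : ℕ) (hji : j < i) (y : Sq) (w : ℝ → ℝ) :
    rm i (Function.update y j w) = Function.update (rm i y) j w := by
  funext k
  by_cases hkj : k = j
  · subst hkj
    simp [rm, hji]
  · rw [Function.update_of_ne hkj]
    unfold rm
    by_cases hk : k < i
    · rw [if_pos hk, if_pos hk, Function.update_of_ne hkj]
    · rw [if_neg hk, if_neg hk, Function.update_of_ne (by omega)]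

theorem d15_rm_apply_lt (j i : ℕ) (hji : j < i) (y : Sq) : rm i y j = y j := by
  simp [rm, hji]

/-- (M2) for iterated differences of a cocycle -/
theorem d15dif_m2 (p : ℕ) (P : Sq → ℂ)
    (hP : ∀ y : Sq, ∑ i ∈ Finset.Icc 0 (p + 1), (-1 : ℂ) ^ i * P (rm i y) = 0)
    (j : ℕ) (hj : j ≤ p + 1) (y v : Sq) :
    ∑ i ∈ Finset.Icc j (p + 1), (-1 : ℂ) ^ i * d15dif j P (rm i y) v = 0 := by
  induction j generalizing y with
  | zero => exact hP y
  | succ j ih =>
    have h1 := ih (by omega) (Function.update y j (y j + v j))
    have h2 := ih (by omega) (Function.update y j (y j - v j))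
    have hs : Finset.Icc j (p + 1) = insert j (Finset.Icc (j + 1) (p + 1)) := by
      ext k
      simp only [Finset.mem_Icc, Finset.mem_insert]
      omega
    have hn : j ∉ Finset.Icc (j + 1) (p + 1) := by
      simp
    rw [hs, Finset.sum_insert hn, d15_rm_update_eq] at h1 h2
    have h3 : ∑ i ∈ Finset.Icc (j + 1) (p + 1), (-1 : ℂ) ^ i * d15dif (j + 1) P (rm i y) v
        = (∑ i ∈ Finset.Icc (j + 1) (p + 1), (-1 : ℂ) ^ i *
              d15dif j P (rm i (Function.update y j (y j + v j))) v
          - ∑ i ∈ Finset.Icc (j + 1) (p + 1), (-1 : ℂ) ^ i *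
              d15dif j P (rm i (Function.update y j (y j - v j))) v) / 2 := by
      rw [← Finset.sum_sub_distrib, Finset.sum_div]
      refine Finset.sum_congr rfl fun i hi => ?_
      have hi' : j < i := by
        have := Finset.mem_Icc.1 hi
        omega
      rw [d15_rm_update_lt j i hi', d15_rm_update_lt j i hi', d15dif_succ,
        d15_rm_apply_lt j i hi']
      ring
    rw [h3]
    linear_combination (1 / 2 : ℂ) * h1 - (1 / 2 : ℂ) * h2

end

end Pool.Agent.Helper67.DO
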