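import Pool.Agent.Helper91.DO.D15a

set_option autoImplicit false

/-!
# D15, part b: the bilinear form `∫ (a b' - b a')`
-/

namespace Pool.Agent.Helper67.DO

open scoped BigOperators Interval
open MeasureTheory

noncomputable section

def d15N (a b : ℝ → ℝ) : ℝ := ∫ x in (0 : ℝ)..1, a x * deriv b x

def d15M (a b : ℝ → ℝ) : ℝ := d15N a b - d15N b a

def d15e (a b c : ℝ → ℝ) : ℝ := (d15M a b + d15M b c - d15M a c) / 2

def d15P (m : ℕ) (y : Sq) : ℂ :=
  ∏ i ∈ Finset.range m, (d15e (y (2 * i)) (y (2 * i + 1)) (y (2 * i + 2)) : ℂ)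

/-- continuously differentiable functions with a given increment -/
structure d15D (κ : ℝ) (a : ℝ → ℝ) : Prop where
  c1 : ContDiff ℝ 1 a
  per : ∀ x, a (x + 1) = a x + κ

/-- the same with a bound for the derivative -/
structure d15B (κ R : ℝ) (a : ℝ → ℝ) : Prop extends d15D κ a where
  bd : ∀ x, |deriv a x| ≤ R

theorem d15_int {a b : ℝ → ℝ} (ha : ContDiff ℝ 1 a) (hb : ContDiff ℝ 1 b) (s t : ℝ) :
    IntervalIntegrable (fun x => a x * deriv b x) volume s t :=
  (ha.continuous.mul (hb.continuous_deriv le_rfl)).intervalIntegrable s t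

theorem d15_deriv_add {a b : ℝ → ℝ} (ha : ContDiff ℝ 1 a) (hb : ContDiff ℝ 1 b) (x : ℝ) :
    deriv (a + b) x = deriv a x + deriv b x :=
  deriv_add (ha.differentiable one_ne_zero x) (hb.differentiable one_ne_zero x)

theorem d15_deriv_sub {a b : ℝ → ℝ} (ha : ContDiff ℝ 1 a) (hb : ContDiff ℝ 1 b) (x : ℝ) :
    deriv (a - b) x = deriv a x - deriv b x :=
  deriv_sub (ha.differentiable one_ne_zero x) (hb.differentiable one_ne_zero x)

theorem d15N_add_left {a a' b : ℝ → ℝ} (ha : ContDiff ℝ 1 a) (ha' : ContDiff ℝ 1 a')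
    (hb : ContDiff ℝ 1 b) : d15N (a + a') b = d15N a b + d15N a' b := by
  unfold d15N
  rw [← intervalIntegral.integral_add (d15_int ha hb _ _) (d15_int ha' hb _ _)]
  refine intervalIntegral.integral_congr fun x _ => ?_
  simp only [Pi.add_apply]
  ring

theorem d15N_add_right {a b b' : ℝ → ℝ} (ha : ContDiff ℝ 1 a) (hb : ContDiff ℝ 1 b)
    (hb' : ContDiff ℝ 1 b') : d15N a (b + b') = d15N a b + d15N a b' := by
  unfold d15N
  rw [← intervalIntegral.integral_add (d15_int ha hb _ _) (d15_int ha hb' _ _)]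
  refine intervalIntegral.integral_congr fun x _ => ?_
  simp only [d15_deriv_add hb hb']
  ring

theorem d15N_smul_left (c : ℝ) (a b : ℝ → ℝ) : d15N (c • a) b = c * d15N a b := by
  unfold d15N
  rw [← intervalIntegral.integral_const_mul]
  refine intervalIntegral.integral_congr fun x _ => ?_
  simp only [Pi.smul_apply, smul_eq_mul]
  ring

theorem d15N_smul_right (c : ℝ) (a : ℝ → ℝ) {b : ℝ → ℝ} (hb : ContDiff ℝ 1 b) :
    d15N a (c • b) = c * d15N a b := by
  unfold d15N
  rw [← intervalIntegral.integral_const_mul]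
  refine intervalIntegral.integral_congr fun x _ => ?_
  have : deriv (c • b) x = c • deriv b x := deriv_const_smul c (hb.differentiable one_ne_zero x)
  simp only [this, smul_eq_mul]
  ring

theorem d15_c1_smul (c : ℝ) {a : ℝ → ℝ} (ha : ContDiff ℝ 1 a) : ContDiff ℝ 1 (c • a) :=
  ha.const_smul c

theorem d15_c1_add {a b : ℝ → ℝ} (ha : ContDiff ℝ 1 a) (hb : ContDiff ℝ 1 b) :
    ContDiff ℝ 1 (a + b) := ha.add hb

theorem d15_c1_const (t : ℝ) : ContDiff ℝ 1 (fun _ : ℝ => t) := contDiff_const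

theorem d15_contDiff_sum {s : Finset ℕ} (w : ℕ → ℝ → ℝ) (c : ℕ → ℝ)
    (hw : ∀ i, ContDiff ℝ 1 (w i)) : ContDiff ℝ 1 (∑ i ∈ s, c i • w i) := by
  induction s using Finset.induction_on with
  | empty =>
    rw [Finset.sum_empty]
    exact contDiff_const (c := (0 : ℝ))
  | insert i s hi ih =>
    rw [Finset.sum_insert hi]
    exact d15_c1_add (d15_c1_smul _ (hw i)) ih

theorem d15N_zero_left (b : ℝ → ℝ) : d15N 0 b = 0 := by
  unfold d15N
  simp

theorem d15N_zero_right (a : ℝ → ℝ) : d15N a 0 = 0 := by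
  unfold d15N
  simp

theorem d15N_sum_left {s : Finset ℕ} (w : ℕ → ℝ → ℝ) (c : ℕ → ℝ) {b : ℝ → ℝ}
    (hw : ∀ i, ContDiff ℝ 1 (w i)) (hb : ContDiff ℝ 1 b) :
    d15N (∑ i ∈ s, c i • w i) b = ∑ i ∈ s, c i * d15N (w i) b := by
  induction s using Finset.induction_on with
  | empty => simp [d15N_zero_left]
  | insert i s hi ih =>
    rw [Finset.sum_insert hi, Finset.sum_insert hi, d15N_add_left (d15_c1_smul _ (hw i)) (d15_contDiff_sum w c hw) hb,
      ih, d15N_smul_left]

theorem d15N_sum_right {s : Finset ℕ} (w : ℕ → ℝ → ℝ) (c : ℕ → ℝ) {b : ℝ → ℝ}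
    (hw : ∀ i, ContDiff ℝ 1 (w i)) (hb : ContDiff ℝ 1 b) :
    d15N b (∑ i ∈ s, c i • w i) = ∑ i ∈ s, c i * d15N b (w i) := by
  induction s using Finset.induction_on with
  | empty => simp [d15N_zero_right]
  | insert i s hi ih =>
    rw [Finset.sum_insert hi, Finset.sum_insert hi, d15N_add_right hb (d15_c1_smul _ (hw i)) (d15_contDiff_sum w c hw),
      ih, d15N_smul_right _ _ (hw i)]

theorem d15M_sum_sum {s s' : Finset ℕ} (w w' : ℕ → ℝ → ℝ) (c c' : ℕ → ℝ)
    (hw : ∀ i, ContDiff ℝ 1 (w i)) (hw' : ∀ i, ContDiff ℝ 1 (w' i)) :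
    d15M (∑ i ∈ s, c i • w i) (∑ k ∈ s', c' k • w' k)
      = ∑ i ∈ s, ∑ k ∈ s', c i * c' k * d15M (w i) (w' k) := by
  unfold d15M
  rw [d15N_sum_left w c hw (d15_contDiff_sum w' c' hw'), d15N_sum_right w c hw (d15_contDiff_sum w' c' hw'),
    ← Finset.sum_sub_distrib]
  refine Finset.sum_congr rfl fun i _ => ?_
  rw [d15N_sum_right w' c' hw' (hw i), d15N_sum_left w' c' hw' (hw i), Finset.mul_sum, Finset.mul_sum,
    ← Finset.sum_sub_distrib]
  refine Finset.sum_congr rfl fun k _ => ?_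
  ring

/-- integration by parts -/
theorem d15N_parts {a b : ℝ → ℝ} (ha : ContDiff ℝ 1 a) (hb : ContDiff ℝ 1 b) :
    d15N a b + d15N b a = a 1 * b 1 - a 0 * b 0 := by
  have h := intervalIntegral.integral_deriv_mul_eq_sub (a := (0 : ℝ)) (b := 1) (u := a) (v := b)
    (u' := deriv a) (v' := deriv b)
    (fun x _ => (ha.differentiable one_ne_zero x).hasDerivAt)
    (fun x _ => (hb.differentiable one_ne_zero x).hasDerivAt)
    ((ha.continuous_deriv le_rfl).intervalIntegrable _ _)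
    ((hb.continuous_deriv le_rfl).intervalIntegrable _ _)
  rw [← h]
  unfold d15N
  rw [← intervalIntegral.integral_add (d15_int ha hb _ _) (d15_int hb ha _ _)]
  refine intervalIntegral.integral_congr fun x _ => ?_
  ring

theorem d15N_const_left (t : ℝ) {b : ℝ → ℝ} (hb : ContDiff ℝ 1 b) :
    d15N (fun _ => t) b = t * (b 1 - b 0) := by
  have h := d15N_parts (contDiff_const (c := t)) hb
  have h2 : d15N b (fun _ => t) = 0 := by
    unfold d15N
    simp
  rw [h2] at h
  linarith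

theorem d15N_const_right (t : ℝ) (a : ℝ → ℝ) : d15N a (fun _ => t) = 0 := by
  unfold d15N
  simp

theorem d15D.one {κ : ℝ} {a : ℝ → ℝ} (h : d15D κ a) : a 1 = a 0 + κ := by
  have := h.per 0
  rwa [zero_add] at this

theorem d15D.add {κ κ' : ℝ} {a b : ℝ → ℝ} (ha : d15D κ a) (hb : d15D κ' b) : d15D (κ + κ') (a + b) where
  c1 := ha.c1.add hb.c1
  per x := by
    simp only [Pi.add_apply, ha.per, hb.per]
    ring

theorem d15D.sub {κ κ' : ℝ} {a b : ℝ → ℝ} (ha : d15D κ a) (hb : d15D κ' b) : d15D (κ - κ') (a - b) where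
  c1 := ha.c1.sub hb.c1
  per x := by
    simp only [Pi.sub_apply, ha.per, hb.per]
    ring

theorem d15D.addc {κ : ℝ} {a : ℝ → ℝ} (ha : d15D κ a) (t : ℝ) : d15D κ (fun x => a x + t) where
  c1 := ha.c1.add contDiff_const
  per x := by
    simp only [ha.per]
    ring

theorem d15D.comp {κ : ℝ} {a g : ℝ → ℝ} (ha : d15D κ a) (hg : IsLift g) : d15D κ (fun x => a (g x)) where
  c1 := by
    have h : ContDiff ℝ 1 g := by
      rw [contDiff_iff_contDiffAt]
      exact fun x => (hg.an x).contDiffAt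
    exact ha.c1.comp h
  per x := by
    simp only [hg.per, ha.per]

theorem d15D.add0 {a v : ℝ → ℝ} (ha : d15D 1 a) (hv : d15D 0 v) : d15D 1 (a + v) := by
  have := ha.add hv
  rwa [add_zero] at this

theorem d15D.sub0 {a v : ℝ → ℝ} (ha : d15D 1 a) (hv : d15D 0 v) : d15D 1 (a - v) := by
  have := ha.sub hv
  rwa [sub_zero] at this

theorem d15_addc_eq (a : ℝ → ℝ) (t : ℝ) : (fun x => a x + t) = a + fun _ => t := rfl

theorem d15M_addc {a b : ℝ → ℝ} (ha : d15D 1 a) (hb : d15D 1 b) (t s : ℝ) :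
    d15M (fun x => a x + t) (fun x => b x + s) = d15M a b + t - s := by
  rw [d15_addc_eq, d15_addc_eq]
  unfold d15M
  rw [d15N_add_left ha.c1 (d15_c1_const t) (d15_c1_add hb.c1 (d15_c1_const s)),
    d15N_add_right ha.c1 hb.c1 (d15_c1_const s), d15N_add_right (d15_c1_const t) hb.c1 (d15_c1_const s),
    d15N_add_left hb.c1 (d15_c1_const s) (d15_c1_add ha.c1 (d15_c1_const t)),
    d15N_add_right hb.c1 ha.c1 (d15_c1_const t), d15N_add_right (d15_c1_const s) ha.c1 (d15_c1_const t),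
    d15N_const_right, d15N_const_right, d15N_const_left _ ha.c1, d15N_const_left _ hb.c1,
    d15N_const_right, d15N_const_right, ha.one, hb.one]
  ring

theorem d15e_addc {a b c : ℝ → ℝ} (ha : d15D 1 a) (hb : d15D 1 b) (hc : d15D 1 c) (t s r : ℝ) :
    d15e (fun x => a x + t) (fun x => b x + s) (fun x => c x + r) = d15e a b c := by
  unfold d15e
  rw [d15M_addc ha hb, d15M_addc hb hc, d15M_addc ha hc]
  ring

theorem d15_thH {a b : ℝ → ℝ} (ha : d15D 1 a) (hb : d15D 1 b) :
    thH a b = (d15M a b + a 0 - b 0) / 2 := by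
  have haa := d15N_parts ha.c1 ha.c1
  have hbb := d15N_parts hb.c1 hb.c1
  rw [ha.one] at haa
  rw [hb.one] at hbb
  have h : (∫ x in (0 : ℝ)..1, (a x - b x) * (deriv a x + deriv b x))
      = d15N a a + d15N a b - d15N b a - d15N b b := by
    unfold d15N
    rw [← intervalIntegral.integral_add (d15_int ha.c1 ha.c1 _ _) (d15_int ha.c1 hb.c1 _ _),
      ← intervalIntegral.integral_sub ((d15_int ha.c1 ha.c1 _ _).add (d15_int ha.c1 hb.c1 _ _))
        (d15_int hb.c1 ha.c1 _ _),
      ← intervalIntegral.integral_sub (((d15_int ha.c1 ha.c1 _ _).add (d15_int ha.c1 hb.c1 _ _)).sub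
        (d15_int hb.c1 ha.c1 _ _)) (d15_int hb.c1 hb.c1 _ _)]
    refine intervalIntegral.integral_congr fun x _ => ?_
    ring
  unfold thH
  rw [h]
  unfold d15M
  linear_combination (1 / 4 : ℝ) * haa - (1 / 4 : ℝ) * hbb

theorem d15_eH {a b c : ℝ → ℝ} (ha : d15D 1 a) (hb : d15D 1 b) (hc : d15D 1 c) :
    eH a b c = d15e a b c := by
  unfold eH d15e
  rw [d15_thH ha hb, d15_thH hb hc, d15_thH ha hc]
  ring

theorem d15_deriv_per {κ : ℝ} {a : ℝ → ℝ} (ha : d15D κ a) (x : ℝ) : deriv a (x + 1) = deriv a x := by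
  have h1 : (fun y => a (y + 1)) = fun y => a y + κ := funext ha.per
  have h2 : deriv (fun y => a (y + 1)) x = deriv a (x + 1) := deriv_comp_add_const a 1 x
  have h3 : deriv (fun y => a y + κ) x = deriv a x := deriv_add_const κ
  rw [← h2, h1, h3]

theorem d15_thH_comp {a b g : ℝ → ℝ} (ha : d15D 1 a) (hb : d15D 1 b) (hg : IsLift g) :
    thH (fun x => a (g x)) (fun x => b (g x)) = thH a b := by
  have hg1 : ContDiff ℝ 1 g := by
    rw [contDiff_iff_contDiffAt]
    exact fun x => (hg.an x).contDiffAt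
  have hda : ∀ x, deriv (fun x => a (g x)) x = deriv a (g x) * deriv g x := fun x =>
    ((ha.c1.differentiable one_ne_zero (g x)).hasDerivAt.comp x (hg.diff x).hasDerivAt).deriv
  have hdb : ∀ x, deriv (fun x => b (g x)) x = deriv b (g x) * deriv g x := fun x =>
    ((hb.c1.differentiable one_ne_zero (g x)).hasDerivAt.comp x (hg.diff x).hasDerivAt).deriv
  set F : ℝ → ℝ := fun x => (a x - b x) * (deriv a x + deriv b x) with hF
  have hFc : Continuous F :=
    (ha.c1.continuous.sub hb.c1.continuous).mul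
      ((ha.c1.continuous_deriv le_rfl).add (hb.c1.continuous_deriv le_rfl))
  have hFp : Function.Periodic F 1 := by
    intro x
    simp only [hF, ha.per, hb.per, d15_deriv_per ha, d15_deriv_per hb]
    ring
  unfold thH
  congr 1
  have h1 : (∫ x in (0 : ℝ)..1, (a (g x) - b (g x)) * (deriv (fun x => a (g x)) x
      + deriv (fun x => b (g x)) x)) = ∫ x in (0 : ℝ)..1, (F ∘ g) x * deriv g x := by
    refine intervalIntegral.integral_congr fun x _ => ?_
    simp only [hda, hdb, hF, Function.comp]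
    ring
  rw [h1, intervalIntegral.integral_comp_mul_deriv (fun x _ => (hg.diff x).hasDerivAt)
    (hg1.continuous_deriv le_rfl).continuousOn hFc]
  have h2 : g 1 = g 0 + 1 := by
    have := hg.per 0
    rwa [zero_add] at this
  rw [h2, hFp.intervalIntegral_add_eq (g 0) 0, zero_add]

theorem d15e_comp {a b c g : ℝ → ℝ} (ha : d15D 1 a) (hb : d15D 1 b) (hc : d15D 1 c) (hg : IsLift g) :
    d15e (fun x => a (g x)) (fun x => b (g x)) (fun x => c (g x)) = d15e a b c := by
  rw [← d15_eH (ha.comp hg) (hb.comp hg) (hc.comp hg), ← d15_eH ha hb hc]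
  unfold eH
  rw [d15_thH_comp ha hb hg, d15_thH_comp hb hc hg, d15_thH_comp ha hc hg]

end

end Pool.Agent.Helper67.DO
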