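import Pool.Agent.Helper91.DO.D15b

set_option autoImplicit false

/-!
# D15, part c: bounds, invariance and the cocycle identity for `d15P`
-/

namespace Pool.Agent.Helper67.DO

open scoped BigOperators Interval
open MeasureTheory

noncomputable section

theorem d15N_bound {a b : ℝ → ℝ} {A R : ℝ} (ha : ∀ x ∈ Set.Icc (0 : ℝ) 1, |a x| ≤ A)
    (hb : ∀ x, |deriv b x| ≤ R) : |d15N a b| ≤ A * R := by
  have hR : 0 ≤ R := le_trans (abs_nonneg _) (hb 0)
  have h := intervalIntegral.norm_integral_le_of_norm_le_const (a := (0 : ℝ)) (b := 1)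
    (C := A * R) (f := fun x => a x * deriv b x) ?_
  · rw [sub_zero, abs_one, mul_one] at h
    exact h
  · intro x hx
    rw [Set.uIoc_of_le zero_le_one] at hx
    rw [Real.norm_eq_abs, abs_mul]
    have h1 := ha x ⟨hx.1.le, hx.2⟩
    exact mul_le_mul h1 (hb x) (abs_nonneg _) (le_trans (abs_nonneg _) h1)

theorem d15M_swap (a b : ℝ → ℝ) : d15M b a = - d15M a b := by
  unfold d15M
  ring

theorem d15M_per {d b : ℝ → ℝ} (hd : d15D 0 d) (hb : d15D 1 b) : d15M d b = 2 * d15N d b - d 0 := by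
  have h := d15N_parts hd.c1 hb.c1
  rw [hd.one, hb.one] at h
  unfold d15M
  linear_combination -h

theorem d15M_sub_left {a a' b : ℝ → ℝ} (ha : ContDiff ℝ 1 a) (ha' : ContDiff ℝ 1 a')
    (hb : ContDiff ℝ 1 b) : d15M (a - a') b = d15M a b - d15M a' b := by
  have e : a - a' = a + (-1 : ℝ) • a' := by
    funext x
    simp [sub_eq_add_neg]
  rw [e]
  unfold d15M
  rw [d15N_add_left ha (d15_c1_smul _ ha') hb, d15N_add_right hb ha (d15_c1_smul _ ha'),
    d15N_smul_left, d15N_smul_right _ _ ha']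
  ring

theorem d15M_lip_left {a a' b : ℝ → ℝ} {R δ : ℝ} (ha : d15D 1 a) (ha' : d15D 1 a') (hb : d15B 1 R b)
    (h : ∀ x, |a x - a' x| ≤ δ) : |d15M a b - d15M a' b| ≤ (2 * R + 1) * δ := by
  have hd : d15D 0 (a - a') := by
    have := ha.sub ha'
    rwa [sub_self] at this
  rw [← d15M_sub_left ha.c1 ha'.c1 hb.c1, d15M_per hd hb.tod15D]
  have h1 : |d15N (a - a') b| ≤ δ * R := d15N_bound (fun x _ => h x) hb.bd
  have h2 : |(a - a') 0| ≤ δ := h 0
  calc |2 * d15N (a - a') b - (a - a') 0| ≤ |2 * d15N (a - a') b| + |(a - a') 0| := abs_sub _ _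
    _ = 2 * |d15N (a - a') b| + |(a - a') 0| := by rw [abs_mul, abs_two]
    _ ≤ (2 * R + 1) * δ := by nlinarith

theorem d15M_lip {a a' b b' : ℝ → ℝ} {R δ : ℝ} (ha : d15B 1 R a) (ha' : d15B 1 R a') (hb : d15B 1 R b)
    (hb' : d15B 1 R b') (h : ∀ x, |a x - a' x| ≤ δ) (h' : ∀ x, |b x - b' x| ≤ δ) :
    |d15M a b - d15M a' b'| ≤ 2 * (2 * R + 1) * δ := by
  have h1 := d15M_lip_left ha.tod15D ha'.tod15D hb h
  have h2 := d15M_lip_left hb.tod15D hb'.tod15D ha' h'
  have e : d15M a b - d15M a' b' = (d15M a b - d15M a' b) - (d15M b a' - d15M b' a') := by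
    rw [d15M_swap a' b, d15M_swap a' b']
    ring
  rw [e]
  calc _ ≤ |d15M a b - d15M a' b| + |d15M b a' - d15M b' a'| := abs_sub _ _
    _ ≤ _ := by linarith

theorem d15e_lip {a a' b b' c c' : ℝ → ℝ} {R δ : ℝ} (ha : d15B 1 R a) (ha' : d15B 1 R a')
    (hb : d15B 1 R b) (hb' : d15B 1 R b') (hc : d15B 1 R c) (hc' : d15B 1 R c')
    (h : ∀ x, |a x - a' x| ≤ δ) (h' : ∀ x, |b x - b' x| ≤ δ) (h'' : ∀ x, |c x - c' x| ≤ δ) :
    |d15e a b c - d15e a' b' c'| ≤ 3 * (2 * R + 1) * δ := by
  have h1 := abs_le.1 (d15M_lip ha ha' hb hb' h h')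
  have h2 := abs_le.1 (d15M_lip hb hb' hc hc' h' h'')
  have h3 := abs_le.1 (d15M_lip ha ha' hc hc' h h'')
  unfold d15e
  rw [abs_le]
  constructor
  · linarith [h1.1, h2.1, h3.2]
  · linarith [h1.2, h2.2, h3.1]

theorem d15B.norm {a : ℝ → ℝ} {κ R : ℝ} (ha : d15B κ R a) :
    ∀ x ∈ Set.Icc (0 : ℝ) 1, |a x + -a 0| ≤ R := by
  intro x hx
  have h := Convex.norm_image_sub_le_of_norm_deriv_le (𝕜 := ℝ) (f := a) (C := R) (s := Set.univ)
    (x := 0) (y := x) (fun y _ => ha.c1.differentiable one_ne_zero y) (fun y _ => ha.bd y)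
    convex_univ (Set.mem_univ _) (Set.mem_univ _)
  have hR : 0 ≤ R := le_trans (abs_nonneg _) (ha.bd 0)
  rw [Real.norm_eq_abs, Real.norm_eq_abs, sub_zero, abs_of_nonneg hx.1] at h
  rw [← sub_eq_add_neg]
  nlinarith [hx.2]


theorem d15B.addc {a : ℝ → ℝ} {κ R : ℝ} (ha : d15B κ R a) (t : ℝ) : d15B κ R (fun x => a x + t) :=
  ⟨ha.tod15D.addc t, fun x => by
    rw [deriv_add_const]
    exact ha.bd x⟩

theorem d15B.add {κ κ' R R' : ℝ} {a b : ℝ → ℝ} (ha : d15B κ R a) (hb : d15B κ' R' b) :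
    d15B (κ + κ') (R + R') (a + b) :=
  ⟨ha.tod15D.add hb.tod15D, fun x => by
    rw [d15_deriv_add ha.c1 hb.c1]
    exact le_trans (abs_add_le _ _) (add_le_add (ha.bd x) (hb.bd x))⟩

theorem d15B.sub {κ κ' R R' : ℝ} {a b : ℝ → ℝ} (ha : d15B κ R a) (hb : d15B κ' R' b) :
    d15B (κ - κ') (R + R') (a - b) :=
  ⟨ha.tod15D.sub hb.tod15D, fun x => by
    rw [d15_deriv_sub ha.c1 hb.c1]
    exact le_trans (abs_sub _ _) (add_le_add (ha.bd x) (hb.bd x))⟩

theorem d15B.add0 {R R' : ℝ} {a b : ℝ → ℝ} (ha : d15B 1 R a) (hb : d15B 0 R' b) :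
    d15B 1 (R + R') (a + b) := by
  have := ha.add hb
  rwa [add_zero] at this

theorem d15B.sub0 {R R' : ℝ} {a b : ℝ → ℝ} (ha : d15B 1 R a) (hb : d15B 0 R' b) :
    d15B 1 (R + R') (a - b) := by
  have := ha.sub hb
  rwa [sub_zero] at this

theorem d15M_bound {a b : ℝ → ℝ} {R : ℝ} (ha : ∀ x ∈ Set.Icc (0 : ℝ) 1, |a x| ≤ R)
    (ha' : ∀ x, |deriv a x| ≤ R) (hb : ∀ x ∈ Set.Icc (0 : ℝ) 1, |b x| ≤ R)
    (hb' : ∀ x, |deriv b x| ≤ R) : |d15M a b| ≤ 2 * R ^ 2 := by
  have h1 := d15N_bound ha hb'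
  have h2 := d15N_bound hb ha'
  unfold d15M
  calc _ ≤ |d15N a b| + |d15N b a| := abs_sub _ _
    _ ≤ _ := by nlinarith

theorem d15e_bound {a b c : ℝ → ℝ} {R : ℝ} (ha : d15B 1 R a) (hb : d15B 1 R b) (hc : d15B 1 R c) :
    |d15e a b c| ≤ 3 * R ^ 2 := by
  rw [← d15e_addc ha.tod15D hb.tod15D hc.tod15D (-a 0) (-b 0) (-c 0)]
  have h1 := abs_le.1 (d15M_bound ha.norm (ha.addc (-a 0)).bd hb.norm (hb.addc (-b 0)).bd)
  have h2 := abs_le.1 (d15M_bound hb.norm (hb.addc (-b 0)).bd hc.norm (hc.addc (-c 0)).bd)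
  have h3 := abs_le.1 (d15M_bound ha.norm (ha.addc (-a 0)).bd hc.norm (hc.addc (-c 0)).bd)
  unfold d15e
  rw [abs_le]
  constructor
  · linarith [h1.1, h2.1, h3.2]
  · linarith [h1.2, h2.2, h3.1]

/-! ### the product -/

theorem d15P_succ (m : ℕ) (y : Sq) : d15P (m + 1) y
    = d15P m y * (d15e (y (2 * m)) (y (2 * m + 1)) (y (2 * m + 2)) : ℂ) := by
  unfold d15P
  rw [Finset.prod_range_succ]

theorem d15P_zero (y : Sq) : d15P 0 y = 1 := by
  unfold d15P
  simp

theorem d15P_dep (m : ℕ) (y y' : Sq) (h : ∀ k ≤ 2 * m, y k = y' k) : d15P m y = d15P m y' := by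
  unfold d15P
  refine Finset.prod_congr rfl fun i hi => ?_
  have := Finset.mem_range.1 hi
  rw [h _ (by omega), h _ (by omega), h _ (by omega)]

theorem d15P_eq (m : ℕ) (y : Sq) (h : ∀ k, d15D 1 (y k)) : d15P m y = ePow m y := by
  unfold d15P ePow
  refine Finset.prod_congr rfl fun i _ => ?_
  rw [d15_eH (h _) (h _) (h _)]

theorem d15P_tinv (m : ℕ) (y : Sq) (h : ∀ k, d15D 1 (y k)) (t : ℕ → ℝ) :
    d15P m (fun k x => y k x + t k) = d15P m y := by
  unfold d15P
  refine Finset.prod_congr rfl fun i _ => ?_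
  rw [d15e_addc (h _) (h _) (h _)]

theorem d15P_rinv (m : ℕ) (y : Sq) (h : ∀ k, d15D 1 (y k)) (g : ℝ → ℝ) (hg : IsLift g) :
    d15P m (fun k x => y k (g x)) = d15P m y := by
  unfold d15P
  refine Finset.prod_congr rfl fun i _ => ?_
  rw [d15e_comp (h _) (h _) (h _) hg]

theorem d15P_bound (m : ℕ) (R : ℝ) (y : Sq) (h : ∀ k, d15B 1 R (y k)) :
    ‖d15P m y‖ ≤ (3 * R ^ 2 + 1) ^ m := by
  induction m with
  | zero => simp [d15P_zero]
  | succ m ih =>
    rw [d15P_succ, norm_mul, pow_succ]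
    refine mul_le_mul ih ?_ (norm_nonneg _) (by positivity)
    rw [Complex.norm_real, Real.norm_eq_abs]
    have := d15e_bound (h (2 * m)) (h (2 * m + 1)) (h (2 * m + 2))
    linarith

theorem d15P_lip (m : ℕ) (R : ℝ) (hR : 0 ≤ R) (y y' : Sq) (h : ∀ k, d15B 1 R (y k))
    (h' : ∀ k, d15B 1 R (y' k)) (δ : ℝ) (hδ : 0 ≤ δ) (hc : ∀ k ≤ 2 * m, ∀ x, |y k x - y' k x| ≤ δ) :
    ‖d15P m y - d15P m y'‖ ≤ m * (3 * R ^ 2 + 1) ^ m * (3 * (2 * R + 1) * δ) := by
  induction m with
  | zero => simp [d15P_zero]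
  | succ m ih =>
    have ih' := ih fun k hk x => hc k (by omega) x
    rw [d15P_succ, d15P_succ]
    set E : ℝ := d15e (y (2 * m)) (y (2 * m + 1)) (y (2 * m + 2)) with hE
    set E' : ℝ := d15e (y' (2 * m)) (y' (2 * m + 1)) (y' (2 * m + 2)) with hE'
    have h1 : |E - E'| ≤ 3 * (2 * R + 1) * δ :=
      d15e_lip (h _) (h' _) (h _) (h' _) (h _) (h' _) (hc _ (by omega)) (hc _ (by omega))
        (hc _ (by omega))
    have h2 : |E'| ≤ 3 * R ^ 2 + 1 := by
      have := d15e_bound (h' (2 * m)) (h' (2 * m + 1)) (h' (2 * m + 2))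
      linarith
    have h3 := d15P_bound m R y h
    have hB : (1 : ℝ) ≤ 3 * R ^ 2 + 1 := by nlinarith [sq_nonneg R]
    have hBm : 0 ≤ (3 * R ^ 2 + 1) ^ m := by positivity
    set D : ℝ := 3 * (2 * R + 1) * δ with hD
    have hD0 : 0 ≤ D := by positivity
    have e : d15P m y * (E : ℂ) - d15P m y' * (E' : ℂ)
        = d15P m y * ((E - E' : ℝ) : ℂ) + (d15P m y - d15P m y') * (E' : ℂ) := by
      push_cast
      ring
    rw [e]
    calc _ ≤ ‖d15P m y * ((E - E' : ℝ) : ℂ)‖ + ‖(d15P m y - d15P m y') * (E' : ℂ)‖ := norm_add_le _ _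
      _ = ‖d15P m y‖ * |E - E'| + ‖d15P m y - d15P m y'‖ * |E'| := by
        rw [norm_mul, norm_mul, Complex.norm_real, Complex.norm_real, Real.norm_eq_abs,
          Real.norm_eq_abs]
      _ ≤ (3 * R ^ 2 + 1) ^ m * D + (m * (3 * R ^ 2 + 1) ^ m * D) * (3 * R ^ 2 + 1) := by
        gcongr
      _ ≤ _ := by
        push_cast
        rw [pow_succ (3 * R ^ 2 + 1) m]
        have e2 : ((m : ℝ) + 1) * ((3 * R ^ 2 + 1) ^ m * (3 * R ^ 2 + 1)) * D
            - ((3 * R ^ 2 + 1) ^ m * D + (m * (3 * R ^ 2 + 1) ^ m * D) * (3 * R ^ 2 + 1))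
            = (3 * R ^ 2 + 1) ^ m * D * ((3 * R ^ 2 + 1) - 1) := by ring
        have e3 := mul_nonneg (mul_nonneg hBm hD0) (sub_nonneg.2 hB)
        linarith

theorem d15dif_lip (m : ℕ) (j : ℕ) (hj : j ≤ 2 * m) : ∀ R R' : ℝ, 0 ≤ R → 0 ≤ R' → ∃ C : ℝ, 0 ≤ C ∧
    ∀ (y y' v v' : Sq) (δ : ℝ), 0 ≤ δ → (∀ k, d15B 1 R (y k)) → (∀ k, d15B 1 R (y' k)) →
    (∀ b, d15B 0 R' (v b)) → (∀ b, d15B 0 R' (v' b)) → (∀ k ≤ 2 * m, ∀ x, |y k x - y' k x| ≤ δ) →
    (∀ b < j, ∀ x, |v b x - v' b x| ≤ δ) →
    ‖d15dif j (d15P m) y v - d15dif j (d15P m) y' v'‖ ≤ C * δ := by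
  induction j with
  | zero =>
    intro R R' hR hR'
    refine ⟨m * (3 * R ^ 2 + 1) ^ m * (3 * (2 * R + 1)), by positivity, ?_⟩
    intro y y' v v' δ hδ hy hy' _ _ hc _
    have := d15P_lip m R hR y y' hy hy' δ hδ hc
    calc _ ≤ _ := this
      _ = _ := by ring
  | succ j ih =>
    intro R R' hR hR'
    obtain ⟨C, hC, hlip⟩ := ih (by omega) (R + R') R' (by positivity) hR'
    refine ⟨2 * C, by positivity, ?_⟩
    intro y y' v v' δ hδ hy hy' hv hv' hc hcv
    have hyR : ∀ k, d15B 1 (R + R') (y k) := fun k => ⟨(hy k).tod15D, fun x => by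
      have := (hy k).bd x
      linarith⟩
    have hyR' : ∀ k, d15B 1 (R + R') (y' k) := fun k => ⟨(hy' k).tod15D, fun x => by
      have := (hy' k).bd x
      linarith⟩
    have hu : ∀ (z : Sq) (w : ℝ → ℝ), (∀ k, d15B 1 (R + R') (z k)) → d15B 1 (R + R') w →
        ∀ k, d15B 1 (R + R') (Function.update z j w k) := by
      intro z w hz hw k
      by_cases hk : k = j
      · subst hk
        rw [Function.update_self]
        exact hw
      · rw [Function.update_of_ne hk]
        exact hz k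
    have h1 := hlip (Function.update y j (y j + v j)) (Function.update y' j (y' j + v' j)) v v' (2 * δ)
      (by positivity) (hu _ _ hyR ((hy j).add0 (hv j))) (hu _ _ hyR' ((hy' j).add0 (hv' j))) hv hv'
      (by
        intro k hk x
        by_cases hkj : k = j
        · subst hkj
          rw [Function.update_self, Function.update_self, Pi.add_apply, Pi.add_apply]
          have h1 := abs_le.1 (hc k hk x)
          have h2 := abs_le.1 (hcv k (by omega) x)
          rw [abs_le]
          constructor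
          · linarith [h1.1, h2.1]
          · linarith [h1.2, h2.2]
        · rw [Function.update_of_ne hkj, Function.update_of_ne hkj]
          have := hc k hk x
          linarith)
      (fun b hb x => by
        have := hcv b (by omega) x
        linarith)
    have h2 := hlip (Function.update y j (y j - v j)) (Function.update y' j (y' j - v' j)) v v' (2 * δ)
      (by positivity) (hu _ _ hyR ((hy j).sub0 (hv j))) (hu _ _ hyR' ((hy' j).sub0 (hv' j))) hv hv'
      (by
        intro k hk x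
        by_cases hkj : k = j
        · subst hkj
          rw [Function.update_self, Function.update_self, Pi.sub_apply, Pi.sub_apply]
          have h1 := abs_le.1 (hc k hk x)
          have h2 := abs_le.1 (hcv k (by omega) x)
          rw [abs_le]
          constructor
          · linarith [h1.1, h2.2]
          · linarith [h1.2, h2.1]
        · rw [Function.update_of_ne hkj, Function.update_of_ne hkj]
          have := hc k hk x
          linarith)
      (fun b hb x => by
        have := hcv b (by omega) x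
        linarith)
    rw [d15dif_succ, d15dif_succ]
    set p := d15dif j (d15P m) (Function.update y j (y j + v j)) v
    set p' := d15dif j (d15P m) (Function.update y' j (y' j + v' j)) v'
    set q := d15dif j (d15P m) (Function.update y j (y j - v j)) v
    set q' := d15dif j (d15P m) (Function.update y' j (y' j - v' j)) v'
    have e : (p - q) / 2 - (p' - q') / 2 = ((p - p') - (q - q')) / 2 := by ring
    rw [e, norm_div]
    have h3 : ‖(p - p') - (q - q')‖ ≤ C * (2 * δ) + C * (2 * δ) :=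
      le_trans (norm_sub_le _ _) (add_le_add h1 h2)
    have h4 : ‖(2 : ℂ)‖ = 2 := by simp
    rw [h4]
    linarith

theorem d15dif_tinv (m : ℕ) (j : ℕ) (y v : Sq) (t s : ℕ → ℝ) (hy : ∀ k, d15D 1 (y k))
    (hv : ∀ b, d15D 0 (v b)) :
    d15dif j (d15P m) (fun k x => y k x + t k) (fun b x => v b x + s b) = d15dif j (d15P m) y v := by
  induction j generalizing y t with
  | zero => exact d15P_tinv m y hy t
  | succ j ih =>
    rw [d15dif_succ, d15dif_succ]
    have hu : ∀ w : ℝ → ℝ, d15D 1 w → ∀ k, d15D 1 (Function.update y j w k) := by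
      intro w hw k
      by_cases hk : k = j
      · subst hk
        rw [Function.update_self]
        exact hw
      · rw [Function.update_of_ne hk]
        exact hy k
    have e1 : Function.update (fun k x => y k x + t k) j ((fun x => y j x + t j) + fun x => v j x + s j)
        = fun k x => Function.update y j (y j + v j) k x + Function.update t j (t j + s j) k := by
      funext k x
      by_cases hk : k = j
      · subst hk
        simp only [Function.update_self, Pi.add_apply]
        ring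
      · simp only [Function.update_of_ne hk]
    have e2 : Function.update (fun k x => y k x + t k) j ((fun x => y j x + t j) - fun x => v j x + s j)
        = fun k x => Function.update y j (y j - v j) k x + Function.update t j (t j - s j) k := by
      funext k x
      by_cases hk : k = j
      · subst hk
        simp only [Function.update_self, Pi.sub_apply]
        ring
      · simp only [Function.update_of_ne hk]
    rw [e1, e2, ih _ _ (hu _ ((hy j).add0 (hv j))), ih _ _ (hu _ ((hy j).sub0 (hv j)))]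

theorem d15dif_rinv (m : ℕ) (j : ℕ) (y v : Sq) (g : ℝ → ℝ) (hg : IsLift g) (hy : ∀ k, d15D 1 (y k))
    (hv : ∀ b, d15D 0 (v b)) :
    d15dif j (d15P m) (fun k x => y k (g x)) (fun b x => v b (g x)) = d15dif j (d15P m) y v := by
  induction j generalizing y with
  | zero => exact d15P_rinv m y hy g hg
  | succ j ih =>
    rw [d15dif_succ, d15dif_succ]
    have hu : ∀ w : ℝ → ℝ, d15D 1 w → ∀ k, d15D 1 (Function.update y j w k) := by
      intro w hw k
      by_cases hk : k = j
      · subst hk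
        rw [Function.update_self]
        exact hw
      · rw [Function.update_of_ne hk]
        exact hy k
    have e1 : Function.update (fun k x => y k (g x)) j ((fun x => y j (g x)) + fun x => v j (g x))
        = fun k x => Function.update y j (y j + v j) k (g x) := by
      funext k x
      by_cases hk : k = j
      · subst hk
        simp only [Function.update_self, Pi.add_apply]
      · simp only [Function.update_of_ne hk]
    have e2 : Function.update (fun k x => y k (g x)) j ((fun x => y j (g x)) - fun x => v j (g x))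
        = fun k x => Function.update y j (y j - v j) k (g x) := by
      funext k x
      by_cases hk : k = j
      · subst hk
        simp only [Function.update_self, Pi.sub_apply]
      · simp only [Function.update_of_ne hk]
    rw [e1, e2, ih _ (hu _ ((hy j).add0 (hv j))), ih _ (hu _ ((hy j).sub0 (hv j)))]

/-! ### the cocycle identity -/

theorem d15P_cocycle_aux (m : ℕ) (y : Sq) :
    ∑ i ∈ Finset.range (2 * m + 2), (-1 : ℂ) ^ i * d15P m (rm i y) = 0 := by
  induction m with
  | zero =>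
    simp [Finset.sum_range_succ, d15P_zero]
  | succ m ih =>
    have hr : 2 * (m + 1) + 2 = (2 * m + 1) + 1 + 1 + 1 := by ring
    rw [hr, Finset.sum_range_succ, Finset.sum_range_succ, Finset.sum_range_succ]
    rw [Finset.sum_range_succ] at ih
    have hlow : ∀ i ∈ Finset.range (2 * m + 1), (-1 : ℂ) ^ i * d15P (m + 1) (rm i y)
        = ((-1 : ℂ) ^ i * d15P m (rm i y)) *
          (d15e (y (2 * m + 1)) (y (2 * m + 2)) (y (2 * m + 3)) : ℂ) := by
      intro i hi
      have hi' := Finset.mem_range.1 hi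
      rw [d15P_succ]
      have e1 : rm i y (2 * m) = y (2 * m + 1) := by
        unfold rm
        rw [if_neg (by omega)]
      have e2 : rm i y (2 * m + 1) = y (2 * m + 2) := by
        unfold rm
        rw [if_neg (by omega)]
      have e3 : rm i y (2 * m + 2) = y (2 * m + 3) := by
        unfold rm
        rw [if_neg (by omega)]
      rw [e1, e2, e3]
      ring
    rw [Finset.sum_congr rfl hlow, ← Finset.sum_mul]
    have hP : ∀ i, 2 * m + 1 ≤ i → d15P m (rm i y) = d15P m y := by
      intro i hi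
      refine d15P_dep m _ _ fun k hk => ?_
      unfold rm
      rw [if_pos (by omega)]
    rw [hP _ le_rfl] at ih
    have hS : ∑ i ∈ Finset.range (2 * m + 1), (-1 : ℂ) ^ i * d15P m (rm i y)
        = -((-1 : ℂ) ^ (2 * m + 1) * d15P m y) := by
      linear_combination ih
    rw [hS, d15P_succ, d15P_succ, d15P_succ, hP _ le_rfl, hP _ (by omega), hP _ (by omega)]
    have a1 : rm (2 * m + 1) y (2 * m) = y (2 * m) := by
      unfold rm
      rw [if_pos (by omega)]
    have a2 : rm (2 * m + 1) y (2 * m + 1) = y (2 * m + 2) := by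
      unfold rm
      rw [if_neg (by omega)]
    have a3 : rm (2 * m + 1) y (2 * m + 2) = y (2 * m + 3) := by
      unfold rm
      rw [if_neg (by omega)]
    have b1 : rm (2 * m + 1 + 1) y (2 * m) = y (2 * m) := by
      unfold rm
      rw [if_pos (by omega)]
    have b2 : rm (2 * m + 1 + 1) y (2 * m + 1) = y (2 * m + 1) := by
      unfold rm
      rw [if_pos (by omega)]
    have b3 : rm (2 * m + 1 + 1) y (2 * m + 2) = y (2 * m + 3) := by
      unfold rm
      rw [if_neg (by omega)]
    have c1 : rm (2 * m + 1 + 1 + 1) y (2 * m) = y (2 * m) := by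
      unfold rm
      rw [if_pos (by omega)]
    have c2 : rm (2 * m + 1 + 1 + 1) y (2 * m + 1) = y (2 * m + 1) := by
      unfold rm
      rw [if_pos (by omega)]
    have c3 : rm (2 * m + 1 + 1 + 1) y (2 * m + 2) = y (2 * m + 2) := by
      unfold rm
      rw [if_pos (by omega)]
    rw [a1, a2, a3, b1, b2, b3, c1, c2, c3]
    have p1 : (-1 : ℂ) ^ (2 * m + 1) = -1 := by
      rw [pow_succ, pow_mul]
      norm_num
    have p2 : (-1 : ℂ) ^ (2 * m + 1 + 1) = 1 := by
      rw [pow_succ, p1]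
      norm_num
    have p3 : (-1 : ℂ) ^ (2 * m + 1 + 1 + 1) = -1 := by
      rw [pow_succ, p2]
      norm_num
    rw [p1, p2, p3]
    have hco : d15e (y (2 * m + 1)) (y (2 * m + 2)) (y (2 * m + 3))
        - d15e (y (2 * m)) (y (2 * m + 2)) (y (2 * m + 3))
        + d15e (y (2 * m)) (y (2 * m + 1)) (y (2 * m + 3))
        - d15e (y (2 * m)) (y (2 * m + 1)) (y (2 * m + 2)) = 0 := by
      unfold d15e
      ring
    have hco' : ((d15e (y (2 * m + 1)) (y (2 * m + 2)) (y (2 * m + 3)) : ℝ) : ℂ)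
        - (d15e (y (2 * m)) (y (2 * m + 2)) (y (2 * m + 3)) : ℝ)
        + (d15e (y (2 * m)) (y (2 * m + 1)) (y (2 * m + 3)) : ℝ)
        - (d15e (y (2 * m)) (y (2 * m + 1)) (y (2 * m + 2)) : ℝ) = 0 := by
      have := congrArg (fun r : ℝ => (r : ℂ)) hco
      push_cast at this
      exact this
    linear_combination (d15P m y) * hco'

theorem d15P_cocycle (m : ℕ) (y : Sq) :
    ∑ i ∈ Finset.Icc 0 (2 * m + 1), (-1 : ℂ) ^ i * d15P m (rm i y) = 0 := by
  have h := d15P_cocycle_aux m y
  have e : Finset.Icc 0 (2 * m + 1) = Finset.range (2 * m + 2) := by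
    ext k
    simp only [Finset.mem_Icc, Finset.mem_range]
    omega
  rw [e]
  exact h

end

end Pool.Agent.Helper67.DO
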