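import Pool.Agent.Helper91.DO.D15c
import Pool.Agent.Helper67.DO.BaseD

set_option autoImplicit false

/-!
# D15, part d: polynomial functions of several points of a simplex, Stokes formula
-/

namespace Pool.Agent.Helper67.DO

open scoped BigOperators Interval
open MeasureTheory

noncomputable section

/-- monomials in the coordinates of one point -/
def d15g (l : List ℕ) (c : ℕ → ℝ) : ℂ := (l.map fun i => (c i : ℂ)).prod

/-- monomials in the coordinates of the points `0..N-1` -/
def d15mon (N : ℕ) (τ : ℕ → List ℕ) (x : ℕ → ℕ → ℝ) : ℂ := ∏ b ∈ Finset.range N, d15g (τ b) (x b)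

/-- polynomials of degree at most `d b` in the point `b` -/
def d15G (N : ℕ) (d : ℕ → ℕ) : Submodule ℂ ((ℕ → ℕ → ℝ) → ℂ) :=
  Submodule.span ℂ {G | ∃ τ : ℕ → List ℕ, (∀ b, (τ b).length ≤ d b) ∧ G = d15mon N τ}

theorem d15G_mono (N : ℕ) {d d' : ℕ → ℕ} (h : ∀ b, d b ≤ d' b) {G : (ℕ → ℕ → ℝ) → ℂ}
    (hG : G ∈ d15G N d) : G ∈ d15G N d' := by
  refine Submodule.span_mono ?_ hG
  rintro _ ⟨τ, hτ, rfl⟩
  exact ⟨τ, fun b => le_trans (hτ b) (h b), rfl⟩

theorem d15mon_mul (N : ℕ) (τ τ' : ℕ → List ℕ) :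
    d15mon N τ * d15mon N τ' = d15mon N (fun b => τ b ++ τ' b) := by
  funext x
  rw [Pi.mul_apply]
  unfold d15mon
  rw [← Finset.prod_mul_distrib]
  refine Finset.prod_congr rfl fun b _ => ?_
  unfold d15g
  rw [List.map_append, List.prod_append]

theorem d15G_mul (N : ℕ) {d d' : ℕ → ℕ} {G G' : (ℕ → ℕ → ℝ) → ℂ}
    (hG : G ∈ d15G N d) (hG' : G' ∈ d15G N d') : G * G' ∈ d15G N (fun b => d b + d' b) := by
  have h := Submodule.mul_mem_mul hG hG'
  unfold d15G at h
  rw [Submodule.span_mul_span] at h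
  refine Submodule.span_mono ?_ h
  rintro _ ⟨_, ⟨τ, hτ, rfl⟩, _, ⟨τ', hτ', rfl⟩, rfl⟩
  refine ⟨fun b => τ b ++ τ' b, fun b => ?_, d15mon_mul N τ τ'⟩
  rw [List.length_append]
  exact add_le_add (hτ b) (hτ' b)

theorem d15G_const (N : ℕ) (d : ℕ → ℕ) (c : ℂ) : (fun _ => c) ∈ d15G N d := by
  have h : (c • d15mon N (fun _ => [])) ∈ d15G N d :=
    Submodule.smul_mem _ _ (Submodule.subset_span ⟨_, fun b => by simp, rfl⟩)
  have e : (c • d15mon N (fun _ => [])) = fun _ => c := by
    funext x
    simp [d15mon, d15g]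
  rwa [e] at h

theorem d15G_coord (N k i : ℕ) (hk : k < N) :
    (fun x : ℕ → ℕ → ℝ => (x k i : ℂ)) ∈ d15G N (fun b => if b = k then 1 else 0) := by
  refine Submodule.subset_span ⟨fun b => if b = k then [i] else [], fun b => ?_, ?_⟩
  · dsimp only
    split_ifs <;> simp
  · funext x
    unfold d15mon
    rw [Finset.prod_eq_single k]
    · simp [d15g]
    · intro b _ hb
      simp [d15g, hb]
    · intro h
      exact absurd (Finset.mem_range.2 hk) h

theorem d15G_sum {ι : Type} (s : Finset ι) (N : ℕ) (d : ℕ → ℕ) (G : ι → (ℕ → ℕ → ℝ) → ℂ)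
    (h : ∀ i ∈ s, G i ∈ d15G N d) : (fun x => ∑ i ∈ s, G i x) ∈ d15G N d := by
  have h1 := Submodule.sum_mem _ h
  have e : (∑ i ∈ s, G i) = fun x => ∑ i ∈ s, G i x := by
    funext x
    rw [Finset.sum_apply]
  rwa [e] at h1

/-! ### derivative of monomials along simplices -/

theorem d15_hasDerivAt_lam (q i : ℕ) (u : Fin q → ℝ) (a : Fin q) :
    HasDerivAt (fun t => (lam q i (Function.update u a t) : ℂ)) (dlam q i a u : ℂ) (u a) := by
  rw [dlam_eq]
  exact (hasDerivAt_lam q i u a (u a)).ofReal_comp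

theorem d15_contDiff_lam (q i : ℕ) : ContDiff ℝ 2 (lam q i) := by
  unfold lam
  refine ContDiff.mul ?_ ?_
  · refine contDiff_prod fun k _ => ?_
    split_ifs
    · exact contDiff_apply ℝ ℝ k
    · exact contDiff_const
  · refine contDiff_prod fun k _ => ?_
    split_ifs
    · exact contDiff_const.sub (contDiff_apply ℝ ℝ k)
    · exact contDiff_const

theorem d15_contDiff_lamc (q i : ℕ) : ContDiff ℝ 2 (fun u => (lam q i u : ℂ)) :=
  Complex.ofRealCLM.contDiff.comp (d15_contDiff_lam q i)

theorem d15g_contDiff (q : ℕ) (l : List ℕ) : ContDiff ℝ 2 (fun u => d15g l (fun i => lam q i u)) := by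
  induction l with
  | nil => exact contDiff_const
  | cons i l ih =>
    have e : (fun u => d15g (i :: l) (fun i => lam q i u))
        = fun u => (lam q i u : ℂ) * d15g l (fun i => lam q i u) := by
      funext u
      simp [d15g]
    rw [e]
    exact (d15_contDiff_lamc q i).mul ih

theorem d15_fderiv_update {q : ℕ} {F : (Fin q → ℝ) → ℂ} (hF : Differentiable ℝ F) (u : Fin q → ℝ)
    (a : Fin q) (F' : ℂ) (h : HasDerivAt (fun t => F (Function.update u a t)) F' (u a)) :
    fderiv ℝ F u (Pi.single a 1) = F' := by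
  have h1 : HasFDerivAt F (fderiv ℝ F u) (Function.update u a (u a)) := by
    rw [Function.update_eq_self]
    exact (hF u).hasFDerivAt
  have h2 := h1.comp_hasDerivAt (u a) (hasDerivAt_update u a (u a))
  exact h2.unique h

theorem d15g_diff (q : ℕ) (l : List ℕ) (hl : l.length ≤ 2) (u : Fin q → ℝ) (a : Fin q) :
    fderiv ℝ (fun u => d15g l (fun i => lam q i u)) u (Pi.single a 1)
      = (d15g l ((fun i => lam q i u) + fun i => dlam q i a u)
        - d15g l ((fun i => lam q i u) - fun i => dlam q i a u)) / 2 := by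
  refine d15_fderiv_update ((d15g_contDiff q l).differentiable two_ne_zero) u a _ ?_
  match l, hl with
  | [], _ =>
    simp only [d15g, List.map_nil, List.prod_nil, sub_self, zero_div]
    exact hasDerivAt_const _ _
  | [i], _ =>
    have h := d15_hasDerivAt_lam q i u a
    simp only [d15g, List.map_cons, List.map_nil, List.prod_cons, List.prod_nil, mul_one,
      Pi.add_apply, Pi.sub_apply]
    refine h.congr_deriv ?_
    push_cast
    ring
  | [i, k], _ =>
    have h := (d15_hasDerivAt_lam q i u a).mul (d15_hasDerivAt_lam q k u a)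
    simp only [d15g, List.map_cons, List.map_nil, List.prod_cons, List.prod_nil, mul_one,
      Pi.add_apply, Pi.sub_apply]
    refine h.congr_deriv ?_
    rw [Function.update_eq_self]
    push_cast
    ring
  | i :: k :: r :: l, hl =>
    simp only [List.length_cons] at hl
    omega

/-! ### continuity -/

theorem d15g_cont (l : List ℕ) : Continuous (d15g l) := by
  induction l with
  | nil => exact continuous_const
  | cons i l ih =>
    have e : d15g (i :: l) = fun c => (c i : ℂ) * d15g l c := by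
      funext c
      simp [d15g]
    rw [e]
    exact (Complex.continuous_ofReal.comp (continuous_apply i)).mul ih

theorem d15G_cont (N : ℕ) (d : ℕ → ℕ) (G : (ℕ → ℕ → ℝ) → ℂ) (hG : G ∈ d15G N d) : Continuous G := by
  unfold d15G at hG
  induction hG using Submodule.span_induction with
  | mem G h =>
    obtain ⟨τ, -, rfl⟩ := h
    unfold d15mon
    exact continuous_finsetProd _ fun b _ => (d15g_cont (τ b)).comp (continuous_apply b)
  | zero => exact continuous_const
  | add G G' _ _ h h' => exact h.add h'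
  | smul c G _ h => exact h.const_smul c

theorem d15dif_cont (G : (ℕ → ℕ → ℝ) → ℂ) (hG : Continuous G) (j : ℕ) :
    Continuous (fun p : (ℕ → ℕ → ℝ) × (ℕ → ℕ → ℝ) => d15dif j G p.1 p.2) := by
  induction j with
  | zero => exact hG.comp continuous_fst
  | succ j ih =>
    have e : (fun p : (ℕ → ℕ → ℝ) × (ℕ → ℕ → ℝ) => d15dif (j + 1) G p.1 p.2)
        = fun p => ((fun p : (ℕ → ℕ → ℝ) × (ℕ → ℕ → ℝ) => d15dif j G p.1 p.2)
              (Function.update p.1 j (p.1 j + p.2 j), p.2)
          - (fun p : (ℕ → ℕ → ℝ) × (ℕ → ℕ → ℝ) => d15dif j G p.1 p.2)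
              (Function.update p.1 j (p.1 j - p.2 j), p.2)) / 2 := rfl
    rw [e]
    have h1 : Continuous fun p : (ℕ → ℕ → ℝ) × (ℕ → ℕ → ℝ) => p.1 j :=
      (continuous_apply j).comp continuous_fst
    have h2 : Continuous fun p : (ℕ → ℕ → ℝ) × (ℕ → ℕ → ℝ) => p.2 j :=
      (continuous_apply j).comp continuous_snd
    refine (Continuous.sub (ih.comp ?_) (ih.comp ?_)).div_const 2
    · exact (continuous_fst.update j (h1.add h2)).prodMk continuous_snd
    · exact (continuous_fst.update j (h1.sub h2)).prodMk continuous_snd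

/-! ### Stokes -/

/-- coordinates of the point of the simplex -/
def d15l (q : ℕ) (u : Fin q → ℝ) : ℕ → ℝ := fun i => lam q i u

/-- and their derivatives -/
def d15dl (q : ℕ) (a : Fin q) (u : Fin q → ℝ) : ℕ → ℝ := fun i => dlam q i a u

theorem d15l_cont (q : ℕ) : Continuous (d15l q) := continuous_pi fun i => continuous_lam q i

theorem d15dl_cont (q : ℕ) (a : Fin q) : Continuous (d15dl q a) := continuous_pi fun i => continuous_dlam q i a

def d15top (j : ℕ) (G : (ℕ → ℕ → ℝ) → ℂ) (u : Fin (j + 1) → ℝ) : ℂ :=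
  ∑ σ : Equiv.Perm (Fin (j + 1)), ((Equiv.Perm.sign σ : ℤ) : ℂ) *
    d15dif (j + 1) G (fun _ => d15l (j + 1) u)
      (fun b => if h : b < j + 1 then d15dl (j + 1) (σ ⟨b, h⟩) u else 0)

def d15face (j : ℕ) (G : (ℕ → ℕ → ℝ) → ℂ) (a : Fin (j + 1)) (ε : ℝ) (u : Fin j → ℝ) : ℂ :=
  ∑ σ : Equiv.Perm (Fin j), ((Equiv.Perm.sign σ : ℤ) : ℂ) *
    d15dif j G (fun _ => d15l (j + 1) (a.insertNth ε u))
      (fun b => if h : b < j then d15dl (j + 1) (a.succAbove (σ ⟨b, h⟩)) (a.insertNth ε u) else 0)

theorem d15top_cont (j : ℕ) (G : (ℕ → ℕ → ℝ) → ℂ) (hG : Continuous G) : Continuous (d15top j G) := by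
  unfold d15top
  refine continuous_finsetSum _ fun σ _ => continuous_const.mul ?_
  have h1 : Continuous (fun (u : Fin (j + 1) → ℝ) (_ : ℕ) => d15l (j + 1) u) :=
    continuous_pi fun _ => d15l_cont (j + 1)
  have h2 : Continuous (fun (u : Fin (j + 1) → ℝ) (b : ℕ) =>
      if h : b < j + 1 then d15dl (j + 1) (σ ⟨b, h⟩) u else 0) := by
    refine continuous_pi fun b => ?_
    by_cases h : b < j + 1
    · have e : (fun (u : Fin (j + 1) → ℝ) => if h : b < j + 1 then d15dl (j + 1) (σ ⟨b, h⟩) u else 0)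
          = fun u => d15dl (j + 1) (σ ⟨b, h⟩) u := funext fun u => dif_pos h
      rw [e]
      exact d15dl_cont _ _
    · have e : (fun (u : Fin (j + 1) → ℝ) => if h : b < j + 1 then d15dl (j + 1) (σ ⟨b, h⟩) u else 0)
          = fun _ => 0 := funext fun u => dif_neg h
      rw [e]
      exact continuous_const
  exact (d15dif_cont G hG (j + 1)).comp (h1.prodMk h2)

theorem d15_insertNth_cont (j : ℕ) (a : Fin (j + 1)) (ε : ℝ) :
    Continuous (fun u : Fin j → ℝ => (a.insertNth ε u : Fin (j + 1) → ℝ)) := by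
  refine continuous_pi fun i => ?_
  refine Fin.succAboveCases a ?_ ?_ i
  · simp only [Fin.insertNth_apply_same]
    exact continuous_const
  · intro k
    simp only [Fin.insertNth_apply_succAbove]
    exact continuous_apply k

theorem d15face_cont (j : ℕ) (G : (ℕ → ℕ → ℝ) → ℂ) (hG : Continuous G) (a : Fin (j + 1)) (ε : ℝ) :
    Continuous (d15face j G a ε) := by
  unfold d15face
  have hi := d15_insertNth_cont j a ε
  refine continuous_finsetSum _ fun σ _ => continuous_const.mul ?_
  have h1 : Continuous (fun (u : Fin j → ℝ) (_ : ℕ) => d15l (j + 1) (a.insertNth ε u)) :=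
    continuous_pi fun _ => (d15l_cont (j + 1)).comp hi
  have h2 : Continuous (fun (u : Fin j → ℝ) (b : ℕ) =>
      if h : b < j then d15dl (j + 1) (a.succAbove (σ ⟨b, h⟩)) (a.insertNth ε u) else 0) := by
    refine continuous_pi fun b => ?_
    by_cases h : b < j
    · have e : (fun (u : Fin j → ℝ) =>
          if h : b < j then d15dl (j + 1) (a.succAbove (σ ⟨b, h⟩)) (a.insertNth ε u) else 0)
          = fun u => d15dl (j + 1) (a.succAbove (σ ⟨b, h⟩)) (a.insertNth ε u) :=
        funext fun u => dif_pos h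
      rw [e]
      exact (d15dl_cont _ _).comp hi
    · have e : (fun (u : Fin j → ℝ) =>
          if h : b < j then d15dl (j + 1) (a.succAbove (σ ⟨b, h⟩)) (a.insertNth ε u) else 0)
          = fun _ => 0 := funext fun u => dif_neg h
      rw [e]
      exact continuous_const
  exact (d15dif_cont G hG j).comp (h1.prodMk h2)

theorem d15top_add (j : ℕ) (G G' : (ℕ → ℕ → ℝ) → ℂ) (u : Fin (j + 1) → ℝ) :
    d15top j (G + G') u = d15top j G u + d15top j G' u := by
  unfold d15top
  rw [← Finset.sum_add_distrib]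
  refine Finset.sum_congr rfl fun σ _ => ?_
  have e : G + G' = fun x => G x + G' x := rfl
  rw [e, d15dif_add]
  ring

theorem d15top_smul (j : ℕ) (c : ℂ) (G : (ℕ → ℕ → ℝ) → ℂ) (u : Fin (j + 1) → ℝ) :
    d15top j (c • G) u = c * d15top j G u := by
  unfold d15top
  rw [Finset.mul_sum]
  refine Finset.sum_congr rfl fun σ _ => ?_
  have e : c • G = fun x => c * G x := rfl
  rw [e, d15dif_smul]
  ring

theorem d15face_add (j : ℕ) (G G' : (ℕ → ℕ → ℝ) → ℂ) (a : Fin (j + 1)) (ε : ℝ) (u : Fin j → ℝ) :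
    d15face j (G + G') a ε u = d15face j G a ε u + d15face j G' a ε u := by
  unfold d15face
  rw [← Finset.sum_add_distrib]
  refine Finset.sum_congr rfl fun σ _ => ?_
  have e : G + G' = fun x => G x + G' x := rfl
  rw [e, d15dif_add]
  ring

theorem d15face_smul (j : ℕ) (c : ℂ) (G : (ℕ → ℕ → ℝ) → ℂ) (a : Fin (j + 1)) (ε : ℝ) (u : Fin j → ℝ) :
    d15face j (c • G) a ε u = c * d15face j G a ε u := by
  unfold d15face
  rw [Finset.mul_sum]
  refine Finset.sum_congr rfl fun σ _ => ?_
  have e : c • G = fun x => c * G x := rfl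
  rw [e, d15dif_smul]
  ring

theorem d15_cub_add (q : ℕ) (f g : (Fin q → ℝ) → ℂ) (hf : Continuous f) (hg : Continuous g) :
    cub q (fun u => f u + g u) = cub q f + cub q g := by
  unfold cub
  exact integral_add (hf.continuousOn.integrableOn_compact isCompact_Icc)
    (hg.continuousOn.integrableOn_compact isCompact_Icc)

theorem d15_cub_smul (q : ℕ) (c : ℂ) (f : (Fin q → ℝ) → ℂ) :
    cub q (fun u => c * f u) = c * cub q f := by
  unfold cub
  exact integral_const_mul c f

theorem d15top_mon (j : ℕ) (τ : ℕ → List ℕ) (hτ : ∀ b, (τ b).length ≤ 2) (u : Fin (j + 1) → ℝ) :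
    d15top j (d15mon (j + 1) τ) u = Matrix.det (Matrix.of fun a b : Fin (j + 1) =>
      fderiv ℝ (fun u => d15g (τ b) (fun i => lam (j + 1) i u)) u (Pi.single a 1)) := by
  unfold d15top
  rw [Matrix.det_apply']
  refine Finset.sum_congr rfl fun σ _ => ?_
  congr 1
  have e : d15mon (j + 1) τ = fun x => ∏ b ∈ Finset.range (j + 1), d15g (τ b) (x b) := rfl
  rw [e, d15dif_prod (j + 1) (fun b => d15g (τ b)) (j + 1) le_rfl, Finset.Ico_self,
    Finset.prod_empty, mul_one, Finset.prod_range]
  refine Finset.prod_congr rfl fun b _ => ?_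
  rw [Matrix.of_apply, d15g_diff _ _ (hτ b)]
  have hb : (b : ℕ) < j + 1 := b.2
  simp only [hb, dite_true]
  rfl

theorem d15face_mon (j : ℕ) (τ : ℕ → List ℕ) (hτ : ∀ b, (τ b).length ≤ 2) (a : Fin (j + 1)) (ε : ℝ)
    (u : Fin j → ℝ) :
    d15face j (d15mon (j + 1) τ) a ε u = d15g (τ (Fin.last j : ℕ)) (fun i => lam (j + 1) i (a.insertNth ε u)) *
      Matrix.det (Matrix.of fun c b : Fin j =>
      fderiv ℝ (fun u => d15g (τ (b.castSucc : ℕ)) (fun i => lam (j + 1) i u)) (a.insertNth ε u)
        (Pi.single (a.succAbove c) 1)) := by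
  unfold d15face
  rw [Matrix.det_apply', Finset.mul_sum]
  refine Finset.sum_congr rfl fun σ _ => ?_
  have e : d15mon (j + 1) τ = fun x => ∏ b ∈ Finset.range (j + 1), d15g (τ b) (x b) := rfl
  rw [e, d15dif_prod (j + 1) (fun b => d15g (τ b)) j (by omega), Nat.Ico_succ_singleton,
    Finset.prod_singleton, Finset.prod_range]
  have e2 : ∏ b : Fin j, (d15g (τ (b : ℕ)) ((fun _ => d15l (j + 1) (a.insertNth ε u)) (b : ℕ)
        + (fun b : ℕ => if h : b < j then d15dl (j + 1) (a.succAbove (σ ⟨b, h⟩)) (a.insertNth ε u) else 0)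
            (b : ℕ))
      - d15g (τ (b : ℕ)) ((fun _ => d15l (j + 1) (a.insertNth ε u)) (b : ℕ)
        - (fun b : ℕ => if h : b < j then d15dl (j + 1) (a.succAbove (σ ⟨b, h⟩)) (a.insertNth ε u) else 0)
            (b : ℕ))) / 2
      = ∏ b : Fin j, (Matrix.of fun c b : Fin j =>
      fderiv ℝ (fun u => d15g (τ (b.castSucc : ℕ)) (fun i => lam (j + 1) i u)) (a.insertNth ε u)
        (Pi.single (a.succAbove c) 1)) (σ b) b := by
    refine Finset.prod_congr rfl fun b _ => ?_
    rw [Matrix.of_apply, d15g_diff _ _ (hτ _)]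
    have hb : (b : ℕ) < j := b.2
    simp only [hb, dite_true]
    rfl
  rw [e2]
  simp only [Fin.val_last]
  unfold d15l
  ring

theorem d15_stokes (h9 : ST_D9) (j : ℕ) (G : (ℕ → ℕ → ℝ) → ℂ) (hG : G ∈ d15G (j + 1) (fun _ => 2)) :
    cub (j + 1) (d15top j G) = (-1 : ℂ) ^ j * ∑ a : Fin (j + 1), (-1 : ℂ) ^ (a : ℕ) *
      (cub j (d15face j G a 1) - cub j (d15face j G a 0)) := by
  have hcont : ∀ G' ∈ d15G (j + 1) (fun _ => 2), Continuous G' := fun G' h => d15G_cont _ _ _ h
  have key : ∀ G' (_ : G' ∈ d15G (j + 1) (fun _ => 2)),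
      cub (j + 1) (d15top j G') = (-1 : ℂ) ^ j * ∑ a : Fin (j + 1), (-1 : ℂ) ^ (a : ℕ) *
      (cub j (d15face j G' a 1) - cub j (d15face j G' a 0)) := by
    intro G' hG'
    have hG2 := hG'
    unfold d15G at hG'
    induction hG' using Submodule.span_induction with
    | mem G' h =>
      obtain ⟨τ, hτ, rfl⟩ := h
      have h := h9 j (fun b u => d15g (τ b) (fun i => lam (j + 1) i u)) (fun b => d15g_contDiff _ _)
      have e1 : d15top j (d15mon (j + 1) τ) = fun u => Matrix.det (Matrix.of fun a b : Fin (j + 1) =>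
        fderiv ℝ (fun u => d15g (τ b) (fun i => lam (j + 1) i u)) u (Pi.single a 1)) :=
        funext fun u => d15top_mon j τ hτ u
      rw [e1, h]
      congr 1
      refine Finset.sum_congr rfl fun a _ => ?_
      congr 1
      congr 1
      · congr 1
        funext u
        rw [d15face_mon j τ hτ]
      · congr 1
        funext u
        rw [d15face_mon j τ hτ]
    | zero =>
      have e1 : d15top j 0 = fun u => 0 * d15top j 0 u := by
        funext u
        rw [← d15top_smul, zero_smul]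
      have e2 : ∀ a ε, d15face j 0 a ε = fun u => 0 * d15face j 0 a ε u := by
        intro a ε
        funext u
        rw [← d15face_smul, zero_smul]
      rw [e1, d15_cub_smul]
      have e3 : ∀ a ε, cub j (d15face j 0 a ε) = 0 := by
        intro a ε
        rw [e2, d15_cub_smul, zero_mul]
      simp [e3]
    | add G' G'' h1 h2 ih1 ih2 =>
      have e1 : d15top j (G' + G'') = fun u => d15top j G' u + d15top j G'' u :=
        funext fun u => d15top_add j G' G'' u
      have e2 : ∀ a ε, d15face j (G' + G'') a ε = fun u => d15face j G' a ε u + d15face j G'' a ε u :=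
        fun a ε => funext fun u => d15face_add j G' G'' a ε u
      rw [e1, d15_cub_add _ _ _ (d15top_cont j _ (hcont _ h1)) (d15top_cont j _ (hcont _ h2)),
        ih1 h1, ih2 h2, ← mul_add, ← Finset.sum_add_distrib]
      congr 1
      refine Finset.sum_congr rfl fun a _ => ?_
      rw [e2, e2, d15_cub_add _ _ _ (d15face_cont j _ (hcont _ h1) _ _) (d15face_cont j _ (hcont _ h2) _ _),
        d15_cub_add _ _ _ (d15face_cont j _ (hcont _ h1) _ _) (d15face_cont j _ (hcont _ h2) _ _)]
      ring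
    | smul c G' h1 ih1 =>
      have e1 : d15top j (c • G') = fun u => c * d15top j G' u :=
        funext fun u => d15top_smul j c G' u
      have e2 : ∀ a ε, d15face j (c • G') a ε = fun u => c * d15face j G' a ε u :=
        fun a ε => funext fun u => d15face_smul j c G' a ε u
      rw [e1, d15_cub_smul, ih1 h1, mul_left_comm, Finset.mul_sum]
      congr 1
      refine Finset.sum_congr rfl fun a _ => ?_
      rw [e2, e2, d15_cub_smul, d15_cub_smul]
      ring
  exact key G hG

end

end Pool.Agent.Helper67.DO
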